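import Pool.Agent.PT56.FacA

set_option autoImplicit false
set_option linter.unusedSectionVars false

/-!
# PT24/FBase: polytopes with at most 2d facets, definitions

See note 3466 on MP_29fbf2_co (extension of helper56's facets theorem).
-/

namespace Pool.PT24

open Set Filter Topology MeasureTheory
open scoped RealInnerProductSpace ENNReal
open Pool.PT56

section

variable {E : Type} [NormedAddCommGroup E] [InnerProductSpace ℝ E] [FiniteDimensional ℝ E]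
  [MeasurableSpace E] [BorelSpace E]

/-- the facets with normals `u` and `w` have a common ridge -/
def Adj (P : Set E) (u w : E) : Prop := Facet P u ∧ Facet P w ∧ u ≠ w ∧
  μHE[Module.finrank ℝ E - 2] (face P u ∩ face P w) ≠ 0

/-- `U` is the set of the facet normals of `P`, and `P` is the intersection of their half-spaces
(`hrepF`) -/
def Nrm (P : Set E) (U : Finset E) : Prop :=
  (∀ u, u ∈ U ↔ Facet P u) ∧ ∀ x, x ∈ P ↔ ∀ u ∈ U, ⟪u, x⟫ ≤ spt P u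

/-- the facts on the normals used in the linear algebra -/
structure NData (N : Finset E) (A : E → E → Prop) : Prop where
  unit : ∀ u ∈ N, ‖u‖ = 1
  symm : ∀ u w, A u w → A w u
  irr : ∀ u w, A u w → u ∈ N ∧ w ∈ N ∧ w ≠ u ∧ w ≠ -u
  opp : ∀ u ∈ N, -u ∉ N → ∀ w, A u w → ∃ w', A u w' ∧ ∃ a b : ℝ, 0 < b ∧ w' = a • u - b • w
  uniq : ∀ u w w', A u w → A u w' → (∃ a b : ℝ, 0 < b ∧ w' = a • u + b • w) → w' = w
  span : ∀ u ∈ N, -u ∉ N → ∀ x, ⟪u, x⟫ = 0 → (∀ w, A u w → ⟪w, x⟫ = 0) → x = 0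
  two : ∀ u ∈ N, -u ∉ N → ∀ w w', A u w → A u w' → w' ∉ Submodule.span ℝ {u, w} →
    ∃ z ∈ N, -z ∈ N ∧ (z ∈ Submodule.span ℝ {u, w} ∨ z ∈ Submodule.span ℝ {u, w'})
  bdd : ∀ x : E, (∀ u ∈ N, 0 ≤ ⟪u, x⟫) → x = 0

end

/-- a triangle or a convex quadrilateral -/
def TriQuad (Q : Set (ℝ × ℝ)) : Prop :=
  ∃ S : Finset (ℝ × ℝ), S.card ≤ 4 ∧ Q = convexHull ℝ (S : Set (ℝ × ℝ)) ∧ (interior Q).Nonempty

section

variable {E : Type} [NormedAddCommGroup E] [NormedSpace ℝ E]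

/-- affine image of (triangle or quadrilateral) x cube -/
def ShapeA (d : ℕ) (P : Set E) : Prop :=
  ∃ (Q : Set (ℝ × ℝ)) (f : ((ℝ × ℝ) × (Fin (d - 2) → ℝ)) ≃ᵃ[ℝ] E), TriQuad Q ∧
    P = f '' (Q ×ˢ Icc (0 : Fin (d - 2) → ℝ) 1)

/-- affine image of a truncated parallelepiped -/
def ShapeB (d : ℕ) (P : Set E) : Prop :=
  ∃ (f : ((Fin (d - 1) → ℝ) × ℝ) ≃ᵃ[ℝ] E) (g : (Fin (d - 1) → ℝ) →ᵃ[ℝ] ℝ),
    (∀ y ∈ Icc (0 : Fin (d - 1) → ℝ) 1, 0 ≤ g y) ∧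
    P = f '' {p | p.1 ∈ Icc (0 : Fin (d - 1) → ℝ) 1 ∧ 0 ≤ p.2 ∧ p.2 ≤ g p.1}

end

end Pool.PT24
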