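import Pool.Agent.PT24.FBase
import Pool.Agent.PT56.FacC

set_option autoImplicit false
set_option linter.unusedSectionVars false

/-!
# PT24/Facts: the facts (F1)-(F4) for the facets of a tiling polytope

From PT56/FacA and PT56/FacC (circle lemma, ridge lemma).
For facets `u /= w`, `w /= -u` with `Adj P u w`: `v` = the unit vector of `span {u, w}` orthogonal to `u` with
`<w, v> > 0`; `w = a u + b v`, `b > 0`; on `face P u` maximising `w` is maximising `v`, so
`face P u ∩ face P w = face (face P u) v` and `gv P u v ≠ 0`.  (`w = -u` is impossible: the two faces are disjoint,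
`P` has interior.)
`opp`: `gv P u (-v) = gv P u v ≠ 0` (`gv_symm_of_single`), ridge lemma for `(u, -v)`.
`uniq`: `w = a u + b v`, `w' = a' u + b' v`, both adjacent: if `w ≠ w'` one of them, say `w`, is a combination
with positive coefficients of `u` and `w'` (order of the angles), and then `face P w = face P u ∩ face P w'`
(nonempty), contained in two hyperplanes: `w` is not a facet (`inter_faces_null`).
`span`: the facet normals of the polytope `secQ P u` in `(ℝ ∙ u)ᗮ` are exactly the unit `v` with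
`gv P u v ≠ 0` (`gv_eq`); if `x ∈ (ℝ ∙ u)ᗮ` is orthogonal to all of them, `x = 0` (`recession`).
`two`: circle lemma and `thin_unique`.
`bdd`: `recession`.
-/

namespace Pool.PT24

open Set Filter Topology MeasureTheory
open scoped RealInnerProductSpace ENNReal
open Pool.PT56

variable {E : Type} [NormedAddCommGroup E] [InnerProductSpace ℝ E] [FiniteDimensional ℝ E]
  [MeasurableSpace E] [BorelSpace E]

theorem ne_zero_of_norm {u : E} (hu : ‖u‖ = 1) : u ≠ 0 := by
  intro h
  rw [h] at hu
  simp at hu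

/-- opposite faces are disjoint -/
theorem opp_faces {P : Set E} (hP : Polytope P) {u : E} (hu : u ≠ 0) :
    face P u ∩ face P (-u) = ∅ := by
  have hc := hP.compact
  ext x
  simp only [mem_inter_iff, mem_empty_iff_false, iff_false, not_and]
  intro hx hx'
  obtain ⟨b, hb⟩ := hP.2
  have h8 := lt_spt hc hb hu
  have h9 := hx'.2 b (interior_subset hb)
  rw [inner_neg_left, inner_neg_left, ((mem_face_iff hc).mp hx).2] at h9
  linarith

theorem Adj.ne_neg {P : Set E} (hP : Polytope P) {u w : E} (h : Adj P u w) : w ≠ -u := by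
  intro hw
  apply h.2.2.2
  rw [hw, opp_faces hP (ne_zero_of_norm h.1.1)]
  simp

theorem Adj.nonempty {P : Set E} {u w : E} (h : Adj P u w) :
    (face P u ∩ face P w).Nonempty := by
  rw [nonempty_iff_ne_empty]
  intro h1
  apply h.2.2.2
  rw [h1]
  simp

/-- the ridge normal of two adjacent facets -/
theorem Adj.normal {P : Set E} (hP : Polytope P) {u w : E} (h : Adj P u w) :
    ∃ (v : E) (a b : ℝ), ‖v‖ = 1 ∧ ⟪u, v⟫ = 0 ∧ 0 < b ∧ w = a • u + b • v ∧
      face P u ∩ face P w = face (face P u) v := by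
  have hc := hP.compact
  have hu := h.1.1
  have hw := h.2.1.1
  have huu : ⟪u, u⟫ = 1 := by rw [real_inner_self_eq_norm_sq, hu]; norm_num
  set z := w - ⟪u, w⟫ • u with hz
  have hz0 : z ≠ 0 := by
    intro h0
    have h1 : w = ⟪u, w⟫ • u := sub_eq_zero.mp h0
    have h2 : |⟪u, w⟫| = 1 := by
      rw [h1, norm_smul, hu, mul_one] at hw
      exact hw
    rcases abs_eq (by norm_num : (0:ℝ) ≤ 1) |>.mp h2 with h3 | h3
    · rw [h3, one_smul] at h1
      exact h.2.2.1 h1.symm
    · rw [h3, neg_smul, one_smul] at h1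
      exact h.ne_neg hP h1
  have hzn : 0 < ‖z‖ := norm_pos_iff.mpr hz0
  have huz : ⟪u, z⟫ = 0 := by
    rw [hz, inner_sub_right, inner_smul_right, huu]; ring
  have hwz : w = ⟪u, w⟫ • u + ‖z‖ • (‖z‖⁻¹ • z) := by
    rw [smul_smul, mul_inv_cancel₀ hzn.ne', one_smul, hz]
    abel
  refine ⟨‖z‖⁻¹ • z, ⟪u, w⟫, ‖z‖, ?_, ?_, hzn, hwz, ?_⟩
  · rw [norm_smul, norm_inv, norm_norm, inv_mul_cancel₀ hzn.ne']
  · rw [inner_smul_right, huz, mul_zero]
  · have hval : ∀ x ∈ face P u, ⟪w, x⟫ = ⟪u, w⟫ * spt P u + ‖z‖ * ⟪‖z‖⁻¹ • z, x⟫ := by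
      intro x hx
      conv_lhs => rw [hwz]
      rw [inner_add_left, inner_smul_left, inner_smul_left (‖z‖⁻¹ • z), ((mem_face_iff hc).mp hx).2]
      simp
    obtain ⟨x0, hx0u, hx0w⟩ := h.nonempty
    ext x
    constructor
    · rintro ⟨hxu, hxw⟩
      refine ⟨hxu, fun y hy => ?_⟩
      have h1 := hxw.2 y hy.1
      rw [hval x hxu, hval y hy] at h1
      have h2 : ‖z‖ * ⟪‖z‖⁻¹ • z, y⟫ ≤ ‖z‖ * ⟪‖z‖⁻¹ • z, x⟫ := by linarith
      exact le_of_mul_le_mul_left h2 hzn
    · rintro ⟨hxu, hx2⟩
      refine ⟨hxu, hxu.1, fun y hy => ?_⟩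
      have h1 := hx0w.2 y hy
      have h2 := hx2 x0 hx0u
      have h3 := hval x hxu
      have h4 := hval x0 hx0u
      have h5 := mul_le_mul_of_nonneg_left h2 hzn.le
      linarith

theorem gv_ne_of_adj {P : Set E} {u w v : E} (h : Adj P u w)
    (hv : face P u ∩ face P w = face (face P u) v) : gv P u v ≠ 0 := by
  have := h.2.2.2
  rw [hv] at this
  exact this

/-- across every ridge there is an adjacent facet -/
theorem adj_of_gv {P : Set E} (hP : Polytope P) {u v : E} (hu : Facet P u) (hv : ‖v‖ = 1)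
    (huv : ⟪u, v⟫ = 0) (hg : gv P u v ≠ 0) :
    ∃ w, Adj P u w ∧ ∃ a b : ℝ, 0 < b ∧ w = a • u + b • v := by
  obtain ⟨w, hw, ⟨a, b, hb, hwab⟩, hsub⟩ := exists_other hP hu hv huv hg
  refine ⟨w, ⟨hu, hw, ?_, ?_⟩, a, b, hb, hwab⟩
  · intro h
    have h1 : ⟪u, v⟫ = b := by
      conv_lhs => rw [h, hwab]
      rw [inner_add_left, inner_smul_left, inner_smul_left, huv, real_inner_self_eq_norm_sq, hv]
      simp
    rw [huv] at h1
    linarith
  · intro h
    apply hg
    refine measure_mono_null ?_ h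
    intro x hx
    exact ⟨hx.1, hsub hx⟩

/-- a positive combination of two tight normals is not a facet -/
theorem not_facet_between {P : Set E} (hP : Polytope P) {u w w' : E} {α β : ℝ} (hα : 0 < α)
    (hβ : 0 < β) (hw : w = α • u + β • w') (huw : u ≠ w) (hu : ‖u‖ = 1) {x0 : E}
    (h1 : x0 ∈ face P u) (h2 : x0 ∈ face P w) (h3 : x0 ∈ face P w') : ¬ Facet P w := by
  intro hF
  have hc := hP.compact
  have hsub : face P w ⊆ face P w ∩ face P u := by
    intro x hx
    refine ⟨hx, (mem_face_iff hc).mpr ⟨hx.1, ?_⟩⟩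
    have e1 : ⟪w, x⟫ = α * ⟪u, x⟫ + β * ⟪w', x⟫ := by
      rw [hw, inner_add_left, inner_smul_left, inner_smul_left]; simp
    have e2 : ⟪w, x0⟫ = α * ⟪u, x0⟫ + β * ⟪w', x0⟫ := by
      rw [hw, inner_add_left, inner_smul_left, inner_smul_left]; simp
    have e3 : ⟪w, x⟫ = ⟪w, x0⟫ := by
      rw [((mem_face_iff hc).mp hx).2, ((mem_face_iff hc).mp h2).2]
    have e4 := ((mem_face_iff hc).mp h1).2
    have e5 := ((mem_face_iff hc).mp h3).2
    have e6 := spt_le hc hx.1 u
    have e7 := spt_le hc hx.1 w'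
    apply le_antisymm e6
    by_contra hcon
    push Not at hcon
    have h4 : α * ⟪u, x⟫ < α * spt P u := by
      exact mul_lt_mul_of_pos_left hcon hα
    have h5 : β * ⟪w', x⟫ ≤ β * spt P w' := mul_le_mul_of_nonneg_left e7 hβ.le
    rw [e4, e5] at e2
    linarith
  apply hF.2
  rw [vol_prism_face hc hF.1]
  refine measure_mono_null (preimage_mono hsub) ?_
  exact inter_faces_null hc hP.2 hF.1 hu huw.symm

theorem adj_uniq {P : Set E} (hP : Polytope P) {u w w' : E} (h : Adj P u w) (h' : Adj P u w')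
    {a b : ℝ} (hb : 0 < b) (hw' : w' = a • u + b • w) : w' = w := by
  have hu := h.1.1
  have huu : ⟪u, u⟫ = 1 := by rw [real_inner_self_eq_norm_sq, hu]; norm_num
  obtain ⟨v, a1, b1, hv, huv, hb1, hwv, hf⟩ := h.normal hP
  obtain ⟨v', a2, b2, hv', huv', hb2, hwv', hf'⟩ := h'.normal hP
  have ha2 : a2 = a + b * a1 := by
    have e1 : ⟪u, w'⟫ = a2 := by
      rw [hwv', inner_add_right, inner_smul_right, inner_smul_right, huu, huv']; ring
    have e2 : ⟪u, w'⟫ = a + b * a1 := by
      rw [hw', hwv, inner_add_right, inner_smul_right, inner_smul_right, inner_add_right,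
        inner_smul_right, inner_smul_right, huu, huv]; ring
    rw [← e1, e2]
  have hvv' : b2 • v' = (b * b1) • v := by
    have e3 : a2 • u + b2 • v' = a • u + b • (a1 • u + b1 • v) := by
      rw [← hwv', ← hwv, ← hw']
    rw [ha2] at e3
    have e4 : b2 • v' = (a • u + b • (a1 • u + b1 • v)) - (a + b * a1) • u := by
      rw [← e3]; abel
    rw [e4]
    module
  have hb2' : b2 = b * b1 := by
    have e5 : ‖b2 • v'‖ = ‖(b * b1) • v‖ := by rw [hvv']
    rw [norm_smul, norm_smul, hv, hv', Real.norm_of_nonneg hb2.le,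
      Real.norm_of_nonneg (by positivity)] at e5
    linarith
  have hveq : v' = v := by
    rw [← hb2'] at hvv'
    exact smul_right_injective E hb2.ne' hvv'
  subst hveq
  obtain ⟨x0, hx0u, hx0w⟩ := h.nonempty
  have hx0w' : x0 ∈ face P w' := by
    have : x0 ∈ face P u ∩ face P w' := by
      rw [hf', ← hf]
      exact ⟨hx0u, hx0w⟩
    exact this.2
  set D := a1 * b2 - a2 * b1 with hD
  rcases lt_trichotomy D 0 with hD1 | hD1 | hD1
  · exfalso
    have e : w' = (-D / b1) • u + (b2 / b1) • w := by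
      rw [hwv, hwv', hD]
      have e1 : (-(a1 * b2 - a2 * b1) / b1) • u + (b2 / b1) • (a1 • u + b1 • v') =
          ((-(a1 * b2 - a2 * b1) / b1) + b2 / b1 * a1) • u + (b2 / b1 * b1) • v' := by module
      rw [e1]
      congr 2
      · field_simp; ring
      · field_simp
    exact not_facet_between hP (div_pos (neg_pos.mpr hD1) hb1) (div_pos hb2 hb1) e
      h'.2.2.1 hu hx0u hx0w' hx0w h'.2.1
  · -- parallel
    have e1 : ‖w‖ = 1 := h.2.1.1
    have e2 : ‖w'‖ = 1 := h'.2.1.1
    have e : w' = (b2 / b1) • w := by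
      rw [hwv, hwv', smul_add, smul_smul, smul_smul]
      have e3 : b2 / b1 * a1 = a2 := by
        field_simp
        linarith
      have e4 : b2 / b1 * b1 = b2 := by field_simp
      rw [e3, e4]
    have e5 : b2 / b1 = 1 := by
      rw [e, norm_smul, e1, mul_one, Real.norm_of_nonneg (div_pos hb2 hb1).le] at e2
      exact e2
    rw [e, e5, one_smul]
  · exfalso
    have e : w = (D / b2) • u + (b1 / b2) • w' := by
      rw [hwv, hwv', hD]
      have e1 : ((a1 * b2 - a2 * b1) / b2) • u + (b1 / b2) • (a2 • u + b2 • v') =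
          (((a1 * b2 - a2 * b1) / b2) + b1 / b2 * a2) • u + (b1 / b2 * b2) • v' := by module
      rw [e1]
      congr 2
      · field_simp; ring
      · field_simp
    exact not_facet_between hP (div_pos hD1 hb2) (div_pos hb1 hb2) e
      h.2.2.1 hu hx0u hx0w hx0w' h.2.1

/-- the plane of two adjacent facets -/
theorem span_normal {u v w : E} {a b : ℝ} (hb : 0 < b) (hw : w = a • u + b • v) :
    Submodule.span ℝ {u, v} = Submodule.span ℝ {u, w} := by
  apply le_antisymm
  · rw [Submodule.span_le]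
    rintro x (rfl | hx)
    · exact Submodule.subset_span (by simp)
    · rw [mem_singleton_iff] at hx
      rw [hx]
      refine Submodule.mem_span_pair.mpr ⟨-a / b, 1 / b, ?_⟩
      rw [hw]
      have e : (-a / b) • u + (1 / b) • (a • u + b • v) =
        (-a / b + 1 / b * a) • u + (1 / b * b) • v := by module
      rw [e]
      have e1 : -a / b + 1 / b * a = 0 := by ring
      have e2 : 1 / b * b = 1 := by field_simp
      rw [e1, e2]
      simp
  · rw [Submodule.span_le]
    rintro x (rfl | hx)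
    · exact Submodule.subset_span (by simp)
    · rw [mem_singleton_iff] at hx
      rw [hx]
      exact Submodule.mem_span_pair.mpr ⟨a, b, hw.symm⟩

theorem facts {P : Set E} (hP : Polytope P) (hT : Tiles P) (hd : 2 ≤ Module.finrank ℝ E)
    {U : Finset E} (hU : Nrm P U) : NData U (Adj P) := by
  have hc := hP.compact
  have hU1 := hU.1
  constructor
  · intro u hu
    exact ((hU1 u).mp hu).1
  · rintro u w ⟨h1, h2, h3, h4⟩
    refine ⟨h2, h1, h3.symm, ?_⟩
    rwa [inter_comm]
  · intro u w h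
    exact ⟨(hU1 u).mpr h.1, (hU1 w).mpr h.2.1, h.2.2.1.symm, h.ne_neg hP⟩
  · intro u hu hnu w h
    have hn : ¬ Facet P (-u) := fun h1 => hnu ((hU1 _).mpr h1)
    have hF := (hU1 u).mp hu
    obtain ⟨v, a, b, hv, huv, hb, hwv, hf⟩ := h.normal hP
    have hg := gv_ne_of_adj h hf
    rw [gv_symm_of_single hc hP.conv hP.2 hT hF.1 hv huv hn] at hg
    obtain ⟨w', hw', a', b', hb', hwv'⟩ := adj_of_gv hP hF (by rw [norm_neg, hv])
      (by rw [inner_neg_right, huv, neg_zero]) hg
    refine ⟨w', hw', a' + b' / b * a, b' / b, div_pos hb' hb, ?_⟩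
    rw [hwv', hwv]
    have e : (a' + b' / b * a) • u - (b' / b) • (a • u + b • v) =
        a' • u + (b' / b * b) • (-v) := by module
    rw [e, div_mul_cancel₀ _ hb.ne']
  · rintro u w w' h h' ⟨a, b, hb, hw'⟩
    exact adj_uniq hP h h' hb hw'
  · intro u hu hnu x hux hx
    have hF := (hU1 u).mp hu
    have h1 : (⟨x, PT57.mem_perp_iff.mpr hux⟩ : (ℝ ∙ u)ᗮ) = 0 := by
      apply recession (secQ_polytope hP hF)
      intro v hv
      have hQ := secQ_compact hc hF.1
      have hg : gv P u (v : E) ≠ 0 := by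
        rw [gv_eq hc hF.1 v, ← vol_prism_muHE hv.1 (face_compact hQ v)
          (fun x hx => ((mem_face_iff hQ).mp hx).2)]
        exact hv.2
      obtain ⟨w, hw, a, b, hb, hwv⟩ := adj_of_gv hP hF hv.1 (PT57.mem_perp_iff.mp v.2) hg
      have h2 := hx w hw
      rw [hwv, inner_add_left, inner_smul_left, inner_smul_left, hux] at h2
      simp only [conj_trivial, mul_zero, zero_add] at h2
      have h3 : ⟪(v : E), x⟫ = 0 := (mul_eq_zero.mp h2).resolve_left hb.ne'
      exact h3.le
    exact congrArg Subtype.val h1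
  · intro u hu hnu w w' h h' hspan
    have hn : ¬ Facet P (-u) := fun h1 => hnu ((hU1 _).mpr h1)
    have hF := (hU1 u).mp hu
    obtain ⟨v, a, b, hv, huv, hb, hwv, hf⟩ := h.normal hP
    obtain ⟨v', a', b', hv', huv', hb', hwv', hf'⟩ := h'.normal hP
    by_contra hcon
    push Not at hcon
    have hno : ∀ z ∈ Submodule.span ℝ {u, v}, ¬ (Facet P z ∧ Facet P (-z)) := by
      rintro z hz ⟨hz1, hz2⟩
      rw [span_normal hb hwv] at hz
      exact (hcon z ((hU1 z).mpr hz1) ((hU1 _).mpr hz2)).1 hz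
    have hno' : ∀ z ∈ Submodule.span ℝ {u, v'}, ¬ (Facet P z ∧ Facet P (-z)) := by
      rintro z hz ⟨hz1, hz2⟩
      rw [span_normal hb' hwv'] at hz
      exact (hcon z ((hU1 z).mpr hz1) ((hU1 _).mpr hz2)).2 hz
    have h1 : gv P (-u) (-v) ≠ 0 := by
      rw [facC_circle hP hT hF.1 hv huv hno]
      exact gv_ne_of_adj h hf
    have h2 : gv P (-u) (-v') ≠ 0 := by
      rw [facC_circle hP hT hF.1 hv' huv' hno']
      exact gv_ne_of_adj h' hf'
    have h3 := thin_unique hc hP.conv (u := -u) (by rw [norm_neg, hF.1]) (by rw [norm_neg, hv])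
      (by rw [norm_neg, hv']) (by rw [inner_neg_neg, huv]) (by rw [inner_neg_neg, huv']) hn h1 h2
    apply hspan
    rw [← span_normal hb hwv]
    rcases h3 with h4 | h4
    · have h5 : v' = v := neg_injective h4
      rw [hwv', h5]
      exact Submodule.mem_span_pair.mpr ⟨a', b', rfl⟩
    · rw [neg_neg] at h4
      have h5 : v' = -v := by rw [← h4, neg_neg]
      rw [hwv', h5]
      exact Submodule.mem_span_pair.mpr ⟨a', -b', by module⟩
  · intro x hx
    have h1 : -x = 0 := by
      apply recession hP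
      intro u hu
      rw [inner_neg_right]
      linarith [hx u ((hU1 u).mpr hu)]
    exact neg_eq_zero.mp h1

end Pool.PT24
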