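import Pool.Agent.PT24.FBase

set_option autoImplicit false
set_option linter.unusedSectionVars false

/-!
# PT24/PlA: an intersection of at most four half-planes is a triangle or a quadrilateral

An extreme point of `Q` has at least two tight inequalities
(otherwise a segment through it stays in `Q`); the line of an inequality `m` (`m.1 ≠ 0`) contains at most two extreme
points of `Q` (of three collinear points the middle one is not extreme).  Double counting: at most `|M| ≤ 4` extreme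
points.  Krein-Milman: `Q` is the closed hull of its extreme points.
-/

namespace Pool.PT24

open Set Filter Topology
open Pool.PT56

/-- three points of a line in order: the middle one is not extreme -/
theorem mid_not_extreme {Q : Set (ℝ × ℝ)} {m : (ℝ × ℝ) × ℝ} (hm0 : m.1 ≠ 0) {a b c : ℝ × ℝ}
    (ha : a ∈ Q) (hc : c ∈ Q)
    (la : m.1.1 * a.1 + m.1.2 * a.2 = m.2) (lb : m.1.1 * b.1 + m.1.2 * b.2 = m.2)
    (lc : m.1.1 * c.1 + m.1.2 * c.2 = m.2)
    (hab : -m.1.2 * a.1 + m.1.1 * a.2 < -m.1.2 * b.1 + m.1.1 * b.2)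
    (hbc : -m.1.2 * b.1 + m.1.1 * b.2 < -m.1.2 * c.1 + m.1.1 * c.2) :
    b ∉ Q.extremePoints ℝ := by
  intro hb
  obtain ⟨_, hb⟩ := mem_extremePoints.1 hb
  set ta := -m.1.2 * a.1 + m.1.1 * a.2 with hta
  set tb := -m.1.2 * b.1 + m.1.1 * b.2 with htb
  set tc := -m.1.2 * c.1 + m.1.1 * c.2 with htc
  have hD : 0 < tc - ta := by linarith
  have hN : 0 < m.1.1 ^ 2 + m.1.2 ^ 2 := by
    rcases lt_or_eq_of_le (add_nonneg (sq_nonneg m.1.1) (sq_nonneg m.1.2)) with h | h
    · exact h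
    · exfalso; apply hm0
      have h1 : m.1.1 = 0 := by nlinarith [sq_nonneg m.1.1, sq_nonneg m.1.2]
      have h2 : m.1.2 = 0 := by nlinarith [sq_nonneg m.1.1, sq_nonneg m.1.2]
      exact Prod.ext h1 h2
  have hseg : b ∈ openSegment ℝ a c := by
    refine ⟨(tc - tb) / (tc - ta), (tb - ta) / (tc - ta), div_pos (by linarith) hD,
      div_pos (by linarith) hD, ?_, ?_⟩
    · field_simp; ring
    · have e1 : (tc - tb) / (tc - ta) + (tb - ta) / (tc - ta) = 1 := by field_simp; ring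
      set al := (tc - tb) / (tc - ta) with hal
      set be := (tb - ta) / (tc - ta) with hbe
      have e2 : al * ta + be * tc = tb := by
        rw [hal, hbe]; field_simp; ring
      have q1 : m.1.1 * (al * a.1 + be * c.1 - b.1) + m.1.2 * (al * a.2 + be * c.2 - b.2) = 0 := by
        have : m.1.1 * (al * a.1 + be * c.1 - b.1) + m.1.2 * (al * a.2 + be * c.2 - b.2)
          = al * (m.1.1 * a.1 + m.1.2 * a.2) + be * (m.1.1 * c.1 + m.1.2 * c.2)
            - (m.1.1 * b.1 + m.1.2 * b.2) := by ring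
        rw [this, la, lb, lc]
        have : al * m.2 + be * m.2 - m.2 = (al + be - 1) * m.2 := by ring
        rw [this, e1]; ring
      have q2 : -m.1.2 * (al * a.1 + be * c.1 - b.1) + m.1.1 * (al * a.2 + be * c.2 - b.2) = 0 := by
        have : -m.1.2 * (al * a.1 + be * c.1 - b.1) + m.1.1 * (al * a.2 + be * c.2 - b.2)
          = al * ta + be * tc - tb := by rw [hta, htb, htc]; ring
        rw [this, e2]; ring
      have r1 : (m.1.1 ^ 2 + m.1.2 ^ 2) * (al * a.1 + be * c.1 - b.1) = 0 := by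
        linear_combination m.1.1 * q1 - m.1.2 * q2
      have r2 : (m.1.1 ^ 2 + m.1.2 ^ 2) * (al * a.2 + be * c.2 - b.2) = 0 := by
        linear_combination m.1.2 * q1 + m.1.1 * q2
      have s1 := (mul_eq_zero.1 r1).resolve_left hN.ne'
      have s2 := (mul_eq_zero.1 r2).resolve_left hN.ne'
      apply Prod.ext
      · simp only [Prod.fst_add, Prod.smul_fst, smul_eq_mul]; linarith
      · simp only [Prod.snd_add, Prod.smul_snd, smul_eq_mul]; linarith
  obtain ⟨h1, h2⟩ := hb a ha c hc hseg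
  rw [h1] at hta
  linarith [hta]


/-- an extreme point has two tight inequalities -/
theorem two_tight {M : Finset ((ℝ × ℝ) × ℝ)} {e : ℝ × ℝ}
    (he : e ∈ ({q : ℝ × ℝ | ∀ m ∈ M, m.1.1 * q.1 + m.1.2 * q.2 ≤ m.2}).extremePoints ℝ) :
    2 ≤ (M.filter fun m => m.1 ≠ 0 ∧ m.1.1 * e.1 + m.1.2 * e.2 = m.2).card := by
  classical
  by_contra hlt
  push Not at hlt
  obtain ⟨heQ, hext⟩ := mem_extremePoints.1 he
  set T := M.filter fun m => m.1 ≠ 0 ∧ m.1.1 * e.1 + m.1.2 * e.2 = m.2 with hT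
  -- a direction in which all the tight inequalities are constant
  obtain ⟨v, hv0, hv⟩ : ∃ v : ℝ × ℝ, v ≠ 0 ∧ ∀ m ∈ T, m.1.1 * v.1 + m.1.2 * v.2 = 0 := by
    rcases T.eq_empty_or_nonempty with h | ⟨m, hm⟩
    · refine ⟨(1, 0), ?_, ?_⟩
      · intro h; have := congrArg Prod.fst h; simp at this
      · intro m hm; rw [h] at hm; exact absurd hm (Finset.notMem_empty m)
    · refine ⟨(-m.1.2, m.1.1), ?_, ?_⟩
      · intro h
        have h1 := congrArg Prod.fst h
        have h2 := congrArg Prod.snd h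
        simp only [Prod.fst_zero, Prod.snd_zero] at h1 h2
        exact (Finset.mem_filter.1 hm).2.1 (Prod.ext h2 (neg_eq_zero.1 h1))
      · intro m' hm'
        have : m' = m := Finset.card_le_one.1 (by omega) m' hm' m hm
        subst this
        show m'.1.1 * (-m'.1.2) + m'.1.2 * m'.1.1 = 0
        ring
  have key : ∀ w : ℝ × ℝ, (∀ m ∈ T, m.1.1 * w.1 + m.1.2 * w.2 = 0) → ∀ᶠ t in 𝓝 (0 : ℝ), ∀ m ∈ M,
      m.1.1 * (e.1 + t * w.1) + m.1.2 * (e.2 + t * w.2) ≤ m.2 := by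
    intro w hw
    rw [Filter.eventually_all_finset]
    intro m hm
    by_cases hmT : m ∈ T
    · refine Filter.Eventually.of_forall fun t => ?_
      have h1 := hw m hmT
      have h2 := (Finset.mem_filter.1 hmT).2.2
      have : m.1.1 * (e.1 + t * w.1) + m.1.2 * (e.2 + t * w.2)
        = (m.1.1 * e.1 + m.1.2 * e.2) + t * (m.1.1 * w.1 + m.1.2 * w.2) := by ring
      rw [this, h1, h2]; simp
    · by_cases h0 : m.1 = 0
      · refine Filter.Eventually.of_forall fun t => ?_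
        have h1 : m.1.1 = 0 := by rw [h0]; rfl
        have h2 : m.1.2 = 0 := by rw [h0]; rfl
        have h3 := heQ m hm
        rw [h1, h2] at h3 ⊢
        linarith
      · have hlt' : m.1.1 * e.1 + m.1.2 * e.2 < m.2 := by
          refine lt_of_le_of_ne (heQ m hm) fun h => hmT (Finset.mem_filter.2 ⟨hm, h0, h⟩)
        have hcont : Continuous fun t : ℝ => m.1.1 * (e.1 + t * w.1) + m.1.2 * (e.2 + t * w.2) := by
          fun_prop
        have := hcont.tendsto 0
        simp only [zero_mul, add_zero] at this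
        exact (this.eventually (gt_mem_nhds hlt')).mono fun t ht => ht.le
  have h1 := key v hv
  have h2 := key (-v) (by
    intro m hm
    have := hv m hm
    simp only [Prod.fst_neg, Prod.snd_neg]
    linarith)
  obtain ⟨t, ⟨ht1, ht2⟩, ht⟩ := (((h1.and h2).filter_mono nhdsWithin_le_nhds).and
    (self_mem_nhdsWithin : Ioi (0 : ℝ) ∈ 𝓝[>] (0 : ℝ))).exists
  have ht : 0 < t := ht
  have hp : (e.1 + t * v.1, e.2 + t * v.2) ∈ {q : ℝ × ℝ | ∀ m ∈ M, m.1.1 * q.1 + m.1.2 * q.2 ≤ m.2} := ht1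
  have hq : (e.1 - t * v.1, e.2 - t * v.2) ∈ {q : ℝ × ℝ | ∀ m ∈ M, m.1.1 * q.1 + m.1.2 * q.2 ≤ m.2} := by
    intro m hm
    have := ht2 m hm
    simp only [Prod.fst_neg, Prod.snd_neg] at this
    show m.1.1 * (e.1 - t * v.1) + m.1.2 * (e.2 - t * v.2) ≤ m.2
    linarith
  have hseg : e ∈ openSegment ℝ (e.1 + t * v.1, e.2 + t * v.2) (e.1 - t * v.1, e.2 - t * v.2) := by
    refine ⟨1 / 2, 1 / 2, by norm_num, by norm_num, by norm_num, ?_⟩
    apply Prod.ext
    · simp only [Prod.fst_add, Prod.smul_fst, smul_eq_mul]; ring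
    · simp only [Prod.snd_add, Prod.smul_snd, smul_eq_mul]; ring
  obtain ⟨h3, _⟩ := hext _ hp _ hq hseg
  apply hv0
  have h4 := congrArg Prod.fst h3
  have h5 := congrArg Prod.snd h3
  simp only at h4 h5
  have h6 : t * v.1 = 0 := by linarith
  have h7 : t * v.2 = 0 := by linarith
  exact Prod.ext ((mul_eq_zero.1 h6).resolve_left ht.ne') ((mul_eq_zero.1 h7).resolve_left ht.ne')

/-- at most two extreme points on a line -/
theorem two_on_line {M : Finset ((ℝ × ℝ) × ℝ)} {F : Finset (ℝ × ℝ)} {m : (ℝ × ℝ) × ℝ}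
    (hF : (F : Set (ℝ × ℝ)) ⊆
      ({q : ℝ × ℝ | ∀ m ∈ M, m.1.1 * q.1 + m.1.2 * q.2 ≤ m.2}).extremePoints ℝ) (hm0 : m.1 ≠ 0) :
    (F.filter fun e => m.1.1 * e.1 + m.1.2 * e.2 = m.2).card ≤ 2 := by
  classical
  by_contra hlt
  push Not at hlt
  obtain ⟨a, ha, b, hb, c, hc, hab, hac, hbc⟩ := Finset.two_lt_card.1 hlt
  rw [Finset.mem_filter] at ha hb hc
  have ea := hF ha.1
  have eb := hF hb.1
  have ec := hF hc.1
  have qa := (mem_extremePoints.1 ea).1
  have qb := (mem_extremePoints.1 eb).1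
  have qc := (mem_extremePoints.1 ec).1
  -- different points have different coordinates along the line
  have hN : 0 < m.1.1 ^ 2 + m.1.2 ^ 2 := by
    rcases lt_or_eq_of_le (add_nonneg (sq_nonneg m.1.1) (sq_nonneg m.1.2)) with h | h
    · exact h
    · exfalso; apply hm0
      have h1 : m.1.1 = 0 := by nlinarith [sq_nonneg m.1.1, sq_nonneg m.1.2]
      have h2 : m.1.2 = 0 := by nlinarith [sq_nonneg m.1.1, sq_nonneg m.1.2]
      exact Prod.ext h1 h2
  have inj : ∀ x y : ℝ × ℝ, m.1.1 * x.1 + m.1.2 * x.2 = m.2 → m.1.1 * y.1 + m.1.2 * y.2 = m.2 →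
      -m.1.2 * x.1 + m.1.1 * x.2 = -m.1.2 * y.1 + m.1.1 * y.2 → x = y := by
    intro x y hx hy h
    have r1 : (m.1.1 ^ 2 + m.1.2 ^ 2) * (x.1 - y.1) = 0 := by
      linear_combination m.1.1 * hx - m.1.1 * hy - m.1.2 * h
    have r2 : (m.1.1 ^ 2 + m.1.2 ^ 2) * (x.2 - y.2) = 0 := by
      linear_combination m.1.2 * hx - m.1.2 * hy + m.1.1 * h
    have s1 := (mul_eq_zero.1 r1).resolve_left hN.ne'
    have s2 := (mul_eq_zero.1 r2).resolve_left hN.ne'
    exact Prod.ext (by linarith) (by linarith)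
  rcases lt_trichotomy (-m.1.2 * a.1 + m.1.1 * a.2) (-m.1.2 * b.1 + m.1.1 * b.2) with h1 | h1 | h1
  · rcases lt_trichotomy (-m.1.2 * b.1 + m.1.1 * b.2) (-m.1.2 * c.1 + m.1.1 * c.2) with h2 | h2 | h2
    · exact mid_not_extreme hm0 qa qc ha.2 hb.2 hc.2 h1 h2 eb
    · exact hbc (inj b c hb.2 hc.2 h2)
    · rcases lt_trichotomy (-m.1.2 * a.1 + m.1.1 * a.2) (-m.1.2 * c.1 + m.1.1 * c.2) with h3 | h3 | h3
      · exact mid_not_extreme hm0 qa qb ha.2 hc.2 hb.2 h3 h2 ec
      · exact hac (inj a c ha.2 hc.2 h3)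
      · exact mid_not_extreme hm0 qc qb hc.2 ha.2 hb.2 h3 h1 ea
  · exact hab (inj a b ha.2 hb.2 h1)
  · rcases lt_trichotomy (-m.1.2 * a.1 + m.1.1 * a.2) (-m.1.2 * c.1 + m.1.1 * c.2) with h2 | h2 | h2
    · exact mid_not_extreme hm0 qb qc hb.2 ha.2 hc.2 h1 h2 ea
    · exact hac (inj a c ha.2 hc.2 h2)
    · rcases lt_trichotomy (-m.1.2 * b.1 + m.1.1 * b.2) (-m.1.2 * c.1 + m.1.1 * c.2) with h3 | h3 | h3
      · exact mid_not_extreme hm0 qb qa hb.2 hc.2 ha.2 h3 h2 ec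
      · exact hbc (inj b c hb.2 hc.2 h3)
      · exact mid_not_extreme hm0 qc qa hc.2 hb.2 ha.2 h3 h1 eb

/-- at most `|M|` extreme points -/
theorem card_extreme_le {M : Finset ((ℝ × ℝ) × ℝ)} {F : Finset (ℝ × ℝ)}
    (hF : (F : Set (ℝ × ℝ)) ⊆
      ({q : ℝ × ℝ | ∀ m ∈ M, m.1.1 * q.1 + m.1.2 * q.2 ≤ m.2}).extremePoints ℝ) :
    F.card ≤ M.card := by
  classical
  have h := Finset.card_mul_le_card_mul (s := F) (t := M)
    (r := fun (e : ℝ × ℝ) (m : (ℝ × ℝ) × ℝ) => m.1 ≠ 0 ∧ m.1.1 * e.1 + m.1.2 * e.2 = m.2)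
    (m := 2) (n := 2) ?_ ?_
  · omega
  · intro e he
    exact two_tight (hF he)
  · intro m hm
    rw [Finset.bipartiteBelow]
    by_cases h0 : m.1 = 0
    · have : (F.filter fun e => m.1 ≠ 0 ∧ m.1.1 * e.1 + m.1.2 * e.2 = m.2) = ∅ := by
        apply Finset.filter_false_of_mem
        intro e _ h
        exact h.1 h0
      rw [this]; simp
    · refine le_trans (Finset.card_le_card ?_) (two_on_line hF h0)
      intro e he
      rw [Finset.mem_filter] at he ⊢
      exact ⟨he.1, he.2.2⟩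

theorem convex_halfplanes (M : Finset ((ℝ × ℝ) × ℝ)) :
    Convex ℝ {q : ℝ × ℝ | ∀ m ∈ M, m.1.1 * q.1 + m.1.2 * q.2 ≤ m.2} := by
  intro x hx y hy a b ha hb hab m hm
  have h1 := hx m hm
  have h2 := hy m hm
  simp only [Prod.fst_add, Prod.smul_fst, smul_eq_mul, Prod.snd_add, Prod.smul_snd]
  have : m.1.1 * (a * x.1 + b * y.1) + m.1.2 * (a * x.2 + b * y.2)
    = a * (m.1.1 * x.1 + m.1.2 * x.2) + b * (m.1.1 * y.1 + m.1.2 * y.2) := by ring
  rw [this]
  calc _ ≤ a * m.2 + b * m.2 := add_le_add (mul_le_mul_of_nonneg_left h1 ha) (mul_le_mul_of_nonneg_left h2 hb)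
    _ = m.2 := by rw [← add_mul, hab, one_mul]

theorem triQuad_of_halfplanes {M : Finset ((ℝ × ℝ) × ℝ)} (hM : M.card ≤ 4)
    (hc : IsCompact {q : ℝ × ℝ | ∀ m ∈ M, m.1.1 * q.1 + m.1.2 * q.2 ≤ m.2})
    (hi : (interior {q : ℝ × ℝ | ∀ m ∈ M, m.1.1 * q.1 + m.1.2 * q.2 ≤ m.2}).Nonempty) :
    TriQuad {q : ℝ × ℝ | ∀ m ∈ M, m.1.1 * q.1 + m.1.2 * q.2 ≤ m.2} := by
  classical
  set Q := {q : ℝ × ℝ | ∀ m ∈ M, m.1.1 * q.1 + m.1.2 * q.2 ≤ m.2} with hQ
  have hfin : (Q.extremePoints ℝ).Finite := by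
    by_contra hinf
    obtain ⟨t, ht, htc⟩ := Set.Infinite.exists_subset_card_eq (s := Q.extremePoints ℝ) hinf (M.card + 1)
    have := card_extreme_le (M := M) (F := t) ht
    omega
  refine ⟨hfin.toFinset, ?_, ?_, hi⟩
  · refine le_trans (card_extreme_le (M := M) ?_) hM
    rw [Set.Finite.coe_toFinset]
  · have h1 := closure_convexHull_extremePoints hc (convex_halfplanes M)
    rw [Set.Finite.coe_toFinset]
    have h2 : closure (convexHull ℝ (Q.extremePoints ℝ)) = convexHull ℝ (Q.extremePoints ℝ) :=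
      (Set.Finite.isClosed_convexHull (𝕜 := ℝ) hfin).closure_eq
    exact h1.symm.trans h2

end Pool.PT24
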