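import Pool.Agent.PT24.FBase

set_option autoImplicit false
set_option linter.unusedSectionVars false

/-!
# PT24/ShA: the normals outside a plane form parallel pairs: product shape

`U \ Pl` consists of pairs `±w`; there are at most `d - 2` pairs.  A vector `x` orthogonal to `Pl` and to all the
pairs is `0` (`bdd`), so `Pl` and the `w`'s span `E`, hence there are exactly `d - 2` pairs `±w_1, …, ±w_(d-2)`, and
with a basis `p, q` of `Pl` the vectors `p, q, w_1, …, w_(d-2)` are a basis of `E`.  The affine isomorphism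
`x ↦ ((⟪p, x⟫, ⟪q, x⟫), (⟪w_i, x⟫ + spt P (-w_i)) / (spt P w_i + spt P (-w_i)))` (the denominators are positive since
`P` has interior) maps `P` onto `Q × [0,1]^(d-2)`, `Q` = the inequalities of the normals in `Pl`.
-/

namespace Pool.PT24

open Set Filter Topology MeasureTheory
open scoped RealInnerProductSpace ENNReal
open Pool.PT56

/-- half of a finite set closed under a fixed point free negation -/
theorem exists_half {V : Type} [AddCommGroup V] [DecidableEq V] :
    ∀ (n : ℕ) (W : Finset V), W.card = n → (∀ u ∈ W, -u ∈ W) → (∀ u ∈ W, -u ≠ u) →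
      ∃ R : Finset V, R ⊆ W ∧ 2 * R.card = W.card ∧ ∀ u ∈ W, u ∈ R ∨ -u ∈ R := by
  intro n
  induction n using Nat.strong_induction_on with
  | _ n ih =>
    intro W hn h1 h2
    rcases W.eq_empty_or_nonempty with rfl | ⟨u, hu⟩
    · exact ⟨∅, by simp, by simp, by simp⟩
    · have hnu := h1 u hu
      have hne := h2 u hu
      have hc1 : ((W.erase u).erase (-u)).card + 2 = W.card := by
        have ha : (-u) ∈ W.erase u := Finset.mem_erase.mpr ⟨hne, hnu⟩
        have hb := Finset.card_erase_add_one ha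
        have hc := Finset.card_erase_add_one hu
        omega
      obtain ⟨R, hR1, hR2, hR3⟩ := ih ((W.erase u).erase (-u)).card (by omega)
        ((W.erase u).erase (-u)) rfl (by
          intro v hv
          simp only [Finset.mem_erase] at hv ⊢
          refine ⟨fun h => hv.2.1 (neg_injective h), fun h => hv.1 ?_, h1 v hv.2.2⟩
          rw [← h, neg_neg]) (by
          intro v hv
          simp only [Finset.mem_erase] at hv
          exact h2 v hv.2.2)
      have huR : u ∉ R := by
        intro h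
        have := hR1 h
        simp only [Finset.mem_erase] at this
        exact this.2.1 rfl
      refine ⟨insert u R, ?_, ?_, ?_⟩
      · intro v hv
        rcases Finset.mem_insert.mp hv with rfl | hv
        · exact hu
        · exact Finset.mem_of_mem_erase (Finset.mem_of_mem_erase (hR1 hv))
      · rw [Finset.card_insert_of_notMem huR]
        omega
      · intro v hv
        by_cases hvu : v = u
        · left; rw [hvu]; exact Finset.mem_insert_self _ _
        · by_cases hvn : v = -u
          · right; rw [hvn, neg_neg]; exact Finset.mem_insert_self _ _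
          · rcases hR3 v (by simp only [Finset.mem_erase]; exact ⟨hvn, hvu, hv⟩) with h | h
            · left; exact Finset.mem_insert_of_mem h
            · right; exact Finset.mem_insert_of_mem h

variable {E : Type} [NormedAddCommGroup E] [InnerProductSpace ℝ E] [FiniteDimensional ℝ E]
  [MeasurableSpace E] [BorelSpace E]

open Classical in
theorem shA {P : Set E} (hP : Polytope P) {U : Finset E} (hU : Nrm P U)
    (hb : ∀ x : E, (∀ u ∈ U, 0 ≤ ⟪u, x⟫) → x = 0) {d : ℕ} (hd : Module.finrank ℝ E = d)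
    (hd2 : 2 ≤ d) {Pl : Submodule ℝ E} (hPl : Module.finrank ℝ Pl = 2)
    (h1 : ∀ u ∈ U, u ∉ Pl → -u ∈ U) (h2 : (U.filter (· ∈ Pl)).card ≤ 4)
    (h3 : (U.filter (· ∉ Pl)).card ≤ 2 * (d - 2)) :
    ∃ (f : ((ℝ × ℝ) × (Fin (d - 2) → ℝ)) ≃ᵃ[ℝ] E) (M : Finset ((ℝ × ℝ) × ℝ)), M.card ≤ 4 ∧
      P = f '' ({q : ℝ × ℝ | ∀ m ∈ M, m.1.1 * q.1 + m.1.2 * q.2 ≤ m.2} ×ˢ
        Icc (0 : Fin (d - 2) → ℝ) 1) := by
  have hunit : ∀ u ∈ U, ‖u‖ = 1 := fun u hu => ((hU.1 u).mp hu).1
  have hne0 : ∀ u ∈ U, u ≠ 0 := by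
    intro u hu h
    have := hunit u hu
    rw [h] at this
    simp at this
  -- the pairs
  obtain ⟨R, hR1, hR2, hR3⟩ := exists_half _ (U.filter (· ∉ Pl)) rfl
    (by
      intro u hu
      rw [Finset.mem_filter] at hu ⊢
      exact ⟨h1 u hu.1 hu.2, fun h => hu.2 (by simpa using Pl.neg_mem h)⟩)
    (by
      intro u hu h
      rw [Finset.mem_filter] at hu
      have h4 : (2 : ℝ) • u = 0 := by
        rw [two_smul]
        nth_rewrite 1 [← h]
        exact neg_add_cancel u
      rcases smul_eq_zero.mp h4 with h5 | h5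
      · norm_num at h5
      · exact hne0 u hu.1 h5)
  have hRU : ∀ w ∈ R, w ∈ U := fun w hw => (Finset.mem_filter.mp (hR1 hw)).1
  have hRn : ∀ w ∈ R, -w ∈ U := fun w hw =>
    h1 w (Finset.mem_filter.mp (hR1 hw)).1 (Finset.mem_filter.mp (hR1 hw)).2
  have hRc : R.card ≤ d - 2 := by omega
  have hker : ∀ x : E, (∀ u ∈ Pl, ⟪u, x⟫ = 0) → (∀ w ∈ R, ⟪w, x⟫ = 0) → x = 0 := by
    intro x hx1 hx2
    apply hb
    intro u hu
    by_cases hup : u ∈ Pl
    · rw [hx1 u hup]
    · rcases hR3 u (Finset.mem_filter.mpr ⟨hu, hup⟩) with h | h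
      · rw [hx2 u h]
      · have := hx2 _ h
        rw [inner_neg_left] at this
        linarith
  -- exactly `d - 2` pairs
  have hRe : R.card = d - 2 := by
    have htop : Pl ⊔ Submodule.span ℝ (R : Set E) = ⊤ := by
      rw [← Submodule.orthogonal_eq_bot_iff, Submodule.eq_bot_iff]
      intro x hx
      rw [Submodule.mem_orthogonal] at hx
      apply hker
      · intro u hu
        exact hx u (Submodule.mem_sup_left hu)
      · intro w hw
        exact hx w (Submodule.mem_sup_right (Submodule.subset_span hw))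
    have h4 : Module.finrank ℝ (↥(Pl ⊔ Submodule.span ℝ (R : Set E))) = d := by
      rw [htop, finrank_top, hd]
    have h5 := Submodule.finrank_add_le_finrank_add_finrank Pl (Submodule.span ℝ (R : Set E))
    have h6 : Module.finrank ℝ (Submodule.span ℝ (R : Set E)) ≤ R.card :=
      finrank_span_finset_le_card R
    omega
  -- a basis of the plane
  let b := Module.finBasisOfFinrankEq ℝ Pl hPl
  set p : E := (b 0 : E) with hp
  set q : E := (b 1 : E) with hq
  have hpq : ∀ u ∈ Pl, ∃ c : ℝ × ℝ, u = c.1 • p + c.2 • q := by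
    intro u hu
    refine ⟨(b.repr ⟨u, hu⟩ 0, b.repr ⟨u, hu⟩ 1), ?_⟩
    have h := b.sum_repr ⟨u, hu⟩
    rw [Fin.sum_univ_two] at h
    have h' := congrArg (Subtype.val) h
    simpa using h'.symm
  choose! c hc using hpq
  -- enumeration of the pairs
  have e : Fin (d - 2) ≃ R := (Fintype.equivFinOfCardEq (by simpa using hRe)).symm
  let w : Fin (d - 2) → E := fun i => (e i : E)
  have hwR : ∀ i, w i ∈ R := fun i => (e i).2
  obtain ⟨z, hz⟩ := hP.2
  let B : Fin (d - 2) → ℝ := fun i => spt P (w i) + spt P (-(w i))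
  have hB : ∀ i, 0 < B i := by
    intro i
    have ha := lt_spt hP.compact hz (hne0 _ (hRU _ (hwR i)))
    have hb' := lt_spt hP.compact hz (hne0 _ (hRn _ (hwR i)))
    rw [inner_neg_left] at hb'
    show 0 < spt P (w i) + spt P (-(w i))
    linarith
  -- the linear isomorphism
  let g : E →ₗ[ℝ] ((ℝ × ℝ) × (Fin (d - 2) → ℝ)) :=
    (((innerSL ℝ p).toLinearMap).prod ((innerSL ℝ q).toLinearMap)).prod
      (LinearMap.pi fun i => (B i)⁻¹ • (innerSL ℝ (w i)).toLinearMap)
  have hg1 : ∀ x, (g x).1.1 = ⟪p, x⟫ := fun x => rfl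
  have hg2 : ∀ x, (g x).1.2 = ⟪q, x⟫ := fun x => rfl
  have hg3 : ∀ x i, (g x).2 i = (B i)⁻¹ * ⟪w i, x⟫ := fun x i => rfl
  have hginj : Function.Injective g := by
    rw [injective_iff_map_eq_zero]
    intro x hx
    apply hker
    · intro u hu
      rw [hc u hu, inner_add_left, real_inner_smul_left, real_inner_smul_left, ← hg1, ← hg2, hx]
      simp
    · intro v hv
      have h4 : v = w (e.symm ⟨v, hv⟩) := by
        show v = ((e (e.symm ⟨v, hv⟩) : R) : E)
        rw [Equiv.apply_symm_apply]
      have h5 := hg3 x (e.symm ⟨v, hv⟩)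
      rw [← h4, hx] at h5
      have h6 := (hB (e.symm ⟨v, hv⟩)).ne'
      have h7 : (B (e.symm ⟨v, hv⟩))⁻¹ * ⟪v, x⟫ = 0 := by
        rw [← h5]; rfl
      rcases mul_eq_zero.mp h7 with h | h
      · exact absurd (inv_eq_zero.mp h) h6
      · exact h
  have hfr : Module.finrank ℝ E = Module.finrank ℝ ((ℝ × ℝ) × (Fin (d - 2) → ℝ)) := by
    rw [Module.finrank_prod, Module.finrank_prod, Module.finrank_self, Module.finrank_fin_fun, hd]
    omega
  let G : E ≃ₗ[ℝ] ((ℝ × ℝ) × (Fin (d - 2) → ℝ)) :=
    LinearMap.linearEquivOfInjective g hginj hfr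
  have hG : ∀ x, G x = g x := fun x => rfl
  let v0 : (ℝ × ℝ) × (Fin (d - 2) → ℝ) := ((0, 0), fun i => (B i)⁻¹ * spt P (-(w i)))
  let F : E ≃ᵃ[ℝ] ((ℝ × ℝ) × (Fin (d - 2) → ℝ)) :=
    G.toAffineEquiv.trans (AffineEquiv.constVAdd ℝ _ v0)
  have hF : ∀ x, F x = v0 + g x := fun x => rfl
  let M : Finset ((ℝ × ℝ) × ℝ) := (U.filter (· ∈ Pl)).image fun u => (c u, spt P u)
  refine ⟨F.symm, M, Finset.card_image_le.trans h2, ?_⟩
  have hmem : ∀ x, x ∈ P ↔ F x ∈ ({q : ℝ × ℝ | ∀ m ∈ M, m.1.1 * q.1 + m.1.2 * q.2 ≤ m.2} ×ˢ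
        Icc (0 : Fin (d - 2) → ℝ) 1) := by
    intro x
    have hcoord : ∀ i, (F x).2 i = (⟪w i, x⟫ + spt P (-(w i))) / B i := by
      intro i
      rw [hF]
      show (B i)⁻¹ * spt P (-(w i)) + (g x).2 i = _
      rw [hg3, div_eq_mul_inv]
      ring
    have hc1 : (F x).1.1 = ⟪p, x⟫ := by
      rw [hF]
      show (0 : ℝ) + (g x).1.1 = _
      rw [hg1, zero_add]
    have hc2 : (F x).1.2 = ⟪q, x⟫ := by
      rw [hF]
      show (0 : ℝ) + (g x).1.2 = _
      rw [hg2, zero_add]
    rw [hU.2 x, mem_prod]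
    constructor
    · intro h
      refine ⟨?_, ?_, ?_⟩
      · intro m hm
        obtain ⟨u, hu, rfl⟩ := Finset.mem_image.mp hm
        rw [Finset.mem_filter] at hu
        have h4 := h u hu.1
        rw [hc1, hc2]
        conv_lhs at h4 => rw [hc u hu.2]
        rw [inner_add_left, real_inner_smul_left, real_inner_smul_left] at h4
        exact h4
      · intro i
        rw [hcoord i]
        apply div_nonneg _ (hB i).le
        have h4 := h _ (hRn _ (hwR i))
        rw [inner_neg_left] at h4
        linarith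
      · intro i
        rw [hcoord i]
        show _ ≤ (1 : ℝ)
        rw [div_le_one (hB i)]
        have h4 := h _ (hRU _ (hwR i))
        show ⟪w i, x⟫ + spt P (-(w i)) ≤ spt P (w i) + spt P (-(w i))
        linarith
    · rintro ⟨h4, h5, h6⟩ u hu
      by_cases hup : u ∈ Pl
      · have h7 := h4 (c u, spt P u) (Finset.mem_image.mpr ⟨u, Finset.mem_filter.mpr ⟨hu, hup⟩,
          rfl⟩)
        rw [hc1, hc2] at h7
        conv_lhs => rw [hc u hup]
        rw [inner_add_left, real_inner_smul_left, real_inner_smul_left]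
        exact h7
      · rcases hR3 u (Finset.mem_filter.mpr ⟨hu, hup⟩) with h | h
        · have h7 : u = w (e.symm ⟨u, h⟩) := by
            show u = ((e (e.symm ⟨u, h⟩) : R) : E)
            rw [Equiv.apply_symm_apply]
          have h8 := h6 (e.symm ⟨u, h⟩)
          rw [hcoord] at h8
          change _ ≤ (1 : ℝ) at h8
          rw [div_le_one (hB _)] at h8
          change ⟪w _, x⟫ + spt P (-(w _)) ≤ spt P (w _) + spt P (-(w _)) at h8
          rw [← h7] at h8
          linarith
        · have h7 : -u = w (e.symm ⟨-u, h⟩) := by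
            show -u = ((e (e.symm ⟨-u, h⟩) : R) : E)
            rw [Equiv.apply_symm_apply]
          have h8 := h5 (e.symm ⟨-u, h⟩)
          rw [hcoord] at h8
          change (0 : ℝ) ≤ _ at h8
          have h9 := hB (e.symm ⟨-u, h⟩)
          have h10 : 0 ≤ ⟪w (e.symm ⟨-u, h⟩), x⟫ + spt P (-(w (e.symm ⟨-u, h⟩))) := by
            by_contra hcon
            push Not at hcon
            exact absurd h8 (not_le.mpr (div_neg_of_neg_of_pos hcon h9))
          rw [← h7, neg_neg, inner_neg_left] at h10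
          linarith
  ext x
  constructor
  · intro hx
    exact ⟨F x, (hmem x).mp hx, F.symm_apply_apply x⟩
  · rintro ⟨y, hy, rfl⟩
    rw [hmem, F.apply_symm_apply]
    exact hy

end Pool.PT24
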