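import Pool.Agent.PT24.FBase

set_option autoImplicit false
set_option linter.unusedSectionVars false

/-!
# PT24/ShB: all facets but two, not adjacent, in parallel pairs: truncated parallelepiped

Let `±w_1, …, ±w_k` be the pairs, `k ≤ d - 1` (`|U| ≤ 2 d`).  If `x` is orthogonal to all `w_i` and to `u` then, for
`x` or `-x`, `⟪X, x⟫ ≥ 0`, so `x = 0` (`hb`): hence `k = d - 1` and `w_1, …, w_(d-1), u` is a basis.  Let `e` be
orthogonal to all `w_i`, `e ≠ 0`: `⟪u, e⟫ ≠ 0`, say `< 0`; then `⟪X, e⟫ > 0` (otherwise `-e` contradicts `hb`).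
So `X = ∑ c_i w_i - γ u` with `γ > 0`.  Coordinates: `y_i = (⟪w_i, x⟫ + spt P (-w_i)) / (spt P w_i + spt P (-w_i))`,
`z = spt P u - ⟪u, x⟫`.  `P = {0 ≤ y ≤ 1, 0 ≤ z, γ z ≤ affine function of y}`, so `z ≤ g y`.
`g ≥ 0` on the cube: otherwise, as `g > 0` at some point of the open cube (`P` has interior), `{g = 0}` meets the
open cube; near such a point `y0` all points with `z = 0`, `g y = 0` belong to `face P u ∩ face P X`: a relatively open
subset of a translate of `span {u, X}ᗮ` (dimension `d - 2`), of positive `μHE[d-2]`, so `Adj P u X`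
(the measure `μHE` on the subspace is `volume`).
-/

namespace Pool.PT24

open Set Filter Topology MeasureTheory
open scoped RealInnerProductSpace ENNReal
open Pool.PT56

variable {E : Type} [NormedAddCommGroup E] [InnerProductSpace ℝ E] [FiniteDimensional ℝ E]
  [MeasurableSpace E] [BorelSpace E]

namespace ShB

/-- two equalities, all other inequalities strict: the two facets are adjacent -/
theorem adj_of_point {P : Set E} (hP : Polytope P) {U : Finset E} (hU : Nrm P U)
    {u X : E} (hu : u ∈ U) (hX : X ∈ U) (huX : u ≠ X) (huX' : X ≠ -u) {x0 : E}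
    (h1 : ⟪u, x0⟫ = spt P u) (h2 : ⟪X, x0⟫ = spt P X)
    (h3 : ∀ w ∈ U, w ≠ u → w ≠ X → ⟪w, x0⟫ < spt P w) : Adj P u X := by
  classical
  have hc := hP.compact
  have hfu := (hU.1 u).mp hu
  have hfX := (hU.1 X).mp hX
  have hun := hfu.1
  have hXn := hfX.1
  have huu : ⟪u, u⟫ = 1 := by rw [real_inner_self_eq_norm_sq, hun]; norm_num
  set z := X - ⟪u, X⟫ • u with hz
  have hz0 : z ≠ 0 := by
    intro h0
    have h1 : X = ⟪u, X⟫ • u := sub_eq_zero.mp h0
    have h2 : |⟪u, X⟫| = 1 := by
      rw [h1, norm_smul, hun, mul_one] at hXn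
      exact hXn
    rcases abs_eq (by norm_num : (0:ℝ) ≤ 1) |>.mp h2 with h3 | h3
    · rw [h3, one_smul] at h1
      exact huX h1.symm
    · rw [h3, neg_smul, one_smul] at h1
      exact huX' h1
  have hzn : 0 < ‖z‖ := norm_pos_iff.mpr hz0
  have huz : ⟪u, z⟫ = 0 := by
    rw [hz, inner_sub_right, inner_smul_right, huu]; ring
  set v := ‖z‖⁻¹ • z with hv
  have hvn : ‖v‖ = 1 := by rw [hv, norm_smul, norm_inv, norm_norm, inv_mul_cancel₀ hzn.ne']
  have huv : ⟪u, v⟫ = 0 := by rw [hv, inner_smul_right, huz, mul_zero]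
  have hXv : X = ⟪u, X⟫ • u + ‖z‖ • v := by
    rw [hv, smul_smul, mul_inv_cancel₀ hzn.ne', one_smul, hz]
    abel
  refine ⟨hfu, hfX, huX, ?_⟩
  have hr : Module.finrank ℝ (perp u v) = Module.finrank ℝ E - 2 := by
    have := Pool.Agent.H14Belt.finrank_perp hun hvn huv
    omega
  -- the affine isometry
  have hiso : Isometry (fun y : (perp u v) => x0 + (y : E)) :=
    (IsometryEquiv.addLeft x0).isometry.comp isometry_subtype_coe
  -- the open set of the strict inequalities
  set O : Set E := {x | ∀ w ∈ U, w ≠ u → w ≠ X → ⟪w, x⟫ < spt P w} with hO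
  have hOo : IsOpen O := by
    have : O = ⋂ w ∈ U.filter (fun w => w ≠ u ∧ w ≠ X), {x | ⟪w, x⟫ < spt P w} := by
      ext x
      simp only [hO, mem_ofPred_eq, Finset.mem_filter, mem_iInter]
      exact ⟨fun h w hw => h w hw.1 hw.2.1 hw.2.2, fun h w a b c => h w ⟨a, b, c⟩⟩
    rw [this]
    exact isOpen_biInter_finset (fun w _ => isOpen_lt (by fun_prop) continuous_const)
  have hOp : IsOpen ((fun y : (perp u v) => x0 + (y : E)) ⁻¹' O) :=
    hOo.preimage hiso.continuous
  have h0 : (0 : perp u v) ∈ (fun y : (perp u v) => x0 + (y : E)) ⁻¹' O := by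
    show x0 + ((0 : perp u v) : E) ∈ O
    simp only [Submodule.coe_zero, add_zero]
    exact h3
  have hpos : 0 < volume ((fun y : (perp u v) => x0 + (y : E)) ⁻¹' O) :=
    hOp.measure_pos _ ⟨0, h0⟩
  have hsub : (fun y : (perp u v) => x0 + (y : E)) '' ((fun y : (perp u v) => x0 + (y : E)) ⁻¹' O)
      ⊆ face P u ∩ face P X := by
    rintro _ ⟨y, hy, rfl⟩
    obtain ⟨hy1, hy2⟩ := Pool.Agent.H14Belt.mem_perp.mp y.2
    have e1 : ⟪u, x0 + (y : E)⟫ = spt P u := by rw [inner_add_right, hy1, h1, add_zero]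
    have e2 : ⟪X, x0 + (y : E)⟫ = spt P X := by
      have e3 : ⟪X, (y : E)⟫ = 0 := by
        rw [hXv, inner_add_left, inner_smul_left, inner_smul_left, hy1, hy2]
        simp
      rw [inner_add_right, h2, e3, add_zero]
    have hmem : x0 + (y : E) ∈ P := by
      rw [hU.2]
      intro w hw
      by_cases hwu : w = u
      · rw [hwu, e1]
      · by_cases hwX : w = X
        · rw [hwX, e2]
        · exact (hy w hw hwu hwX).le
    exact ⟨(mem_face_iff hc).mpr ⟨hmem, e1⟩, (mem_face_iff hc).mpr ⟨hmem, e2⟩⟩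
  intro hnull
  have h4 := measure_mono_null hsub hnull
  rw [hiso.euclideanHausdorffMeasure_image, ← hr,
    InnerProductSpace.euclideanHausdorffMeasure_eq_volume] at h4
  exact hpos.ne' h4

/-- extension to a basis, with the orthogonality condition -/
theorem ext_basis {s : Set E} {T : Finset E} (hs : LinearIndepOn ℝ id s) (hst : s ⊆ (T : Set E))
    (hspan : ∀ x : E, (∀ w ∈ T, ⟪w, x⟫ = 0) → x = 0) :
    ∃ b : Finset E, b ⊆ T ∧ s ⊆ (b : Set E) ∧ LinearIndepOn ℝ id (b : Set E) ∧
      b.card = Module.finrank ℝ E ∧ ∀ x : E, (∀ w ∈ b, ⟪w, x⟫ = 0) → x = 0 := by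
  obtain ⟨b, hb, hsb, hTb, hli⟩ := exists_linearIndepOn_id_extension hs hst
  have hfin : b.Finite := T.finite_toSet.subset hb
  have hcoe : (hfin.toFinset : Set E) = b := hfin.coe_toFinset
  have horth : ∀ x : E, (∀ w ∈ b, ⟪w, x⟫ = 0) → x = 0 := by
    intro x hx
    apply hspan
    intro w hw
    have h1 : Submodule.span ℝ b ≤ (ℝ ∙ x)ᗮ := by
      rw [Submodule.span_le]
      intro y hy
      rw [SetLike.mem_coe, Submodule.mem_orthogonal_singleton_iff_inner_left]
      exact hx y hy
    have h2 := h1 (hTb hw)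
    rwa [Submodule.mem_orthogonal_singleton_iff_inner_left] at h2
  refine ⟨hfin.toFinset, ?_, ?_, ?_, ?_, ?_⟩
  · intro w hw
    exact hb (hfin.mem_toFinset.mp hw)
  · rw [hcoe]; exact hsb
  · rw [hcoe]; exact hli
  · have htop : Submodule.span ℝ b = ⊤ := by
      rw [← Submodule.orthogonal_eq_bot_iff, Submodule.eq_bot_iff]
      intro x hx
      apply horth
      intro w hw
      exact (Submodule.mem_orthogonal _ _).mp hx w (Submodule.subset_span hw)
    have h3 := finrank_span_finset_eq_card (R := ℝ) (s := hfin.toFinset) (by rw [hcoe]; exact hli)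
    rw [hcoe, htop, finrank_top] at h3
    exact h3.symm
  · intro x hx
    apply horth
    intro w hw
    exact hx w (hfin.mem_toFinset.mpr hw)


/-- an independent subset of a symmetric finite set has at most half as many elements -/
theorem sym_card {T : Finset E} (hneg : ∀ w ∈ T, -w ∈ T) {b : Finset E} (hbT : b ⊆ T)
    (hli : LinearIndepOn ℝ id (b : Set E)) :
    2 * b.card ≤ T.card ∧ (T.card ≤ 2 * b.card → ∀ w ∈ T, w ∈ b ∨ -w ∈ b) := by
  classical
  have hdis : Disjoint b (b.image Neg.neg) := by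
    rw [Finset.disjoint_left]
    intro w hw hw'
    obtain ⟨w', hw'b, hww⟩ := Finset.mem_image.mp hw'
    have h0 : ∀ y ∈ b, y ≠ 0 := fun y hy => hli.ne_zero (i := y) hy
    have hne : w ≠ w' := by
      intro h
      have h1 : w = -w := by
        conv_rhs => rw [h, hww]
      have h2 : (2 : ℝ) • w = 0 := by
        rw [two_smul]
        nth_rw 2 [h1]
        abel
      exact h0 w hw ((smul_eq_zero.mp h2).resolve_left (by norm_num))
    have h3 : LinearIndepOn ℝ id ({w, w'} : Set E) := hli.mono (by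
      intro y hy
      rcases hy with rfl | hy
      · exact hw
      · rw [mem_singleton_iff] at hy
        rw [hy]
        exact hw'b)
    rw [LinearIndepOn.pair_iff _ hne] at h3
    have h4 := h3 1 1 (by
      simp only [id_eq, one_smul]
      rw [← hww]
      abel)
    exact one_ne_zero h4.1
  have hsub : b ∪ b.image Neg.neg ⊆ T := by
    intro w hw
    rcases Finset.mem_union.mp hw with hw | hw
    · exact hbT hw
    · obtain ⟨w', hw', rfl⟩ := Finset.mem_image.mp hw
      exact hneg w' (hbT hw')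
  have hcard : (b ∪ b.image Neg.neg).card = 2 * b.card := by
    rw [Finset.card_union_of_disjoint hdis, Finset.card_image_of_injective _ neg_injective]
    ring
  refine ⟨by rw [← hcard]; exact Finset.card_le_card hsub, fun h w hw => ?_⟩
  have heq : b ∪ b.image Neg.neg = T := Finset.eq_of_subset_of_card_le hsub (by rw [hcard]; exact h)
  rw [← heq] at hw
  rcases Finset.mem_union.mp hw with hw | hw
  · exact Or.inl hw
  · obtain ⟨w', hw', rfl⟩ := Finset.mem_image.mp hw
    right
    rw [neg_neg]
    exact hw'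

/-- two unit vectors which are not equal or opposite are independent -/
theorem pair_indep {u X : E} (hu : ‖u‖ = 1) (hX : ‖X‖ = 1) (h1 : u ≠ X) (h2 : X ≠ -u) :
    LinearIndepOn ℝ id ({u, X} : Set E) := by
  rw [LinearIndepOn.pair_iff _ h1]
  intro c d hcd
  simp only [id_eq] at hcd
  by_cases hd : d = 0
  · rw [hd, zero_smul, add_zero] at hcd
    refine ⟨(smul_eq_zero.mp hcd).resolve_right ?_, hd⟩
    intro h
    rw [h, norm_zero] at hu
    exact zero_ne_one hu
  · exfalso
    have h3 : X = (-(c / d)) • u := by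
      have h4 : d • X = -(c • u) := by
        rw [eq_neg_iff_add_eq_zero, add_comm]
        exact hcd
      have h5 : X = d⁻¹ • (d • X) := by rw [smul_smul, inv_mul_cancel₀ hd, one_smul]
      rw [h5, h4, smul_neg, smul_smul, neg_smul]
      congr 2
      field_simp
    have h6 : |(-(c / d))| = 1 := by
      rw [h3, norm_smul, hu, mul_one] at hX
      exact hX
    rcases abs_eq (by norm_num : (0:ℝ) ≤ 1) |>.mp h6 with h7 | h7
    · rw [h7, one_smul] at h3
      exact h1 h3.symm
    · rw [h7, neg_smul, one_smul] at h3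
      exact h2 h3

end ShB

open ShB in
theorem shB {P : Set E} (hP : Polytope P) {U : Finset E} (hU : Nrm P U)
    (hb : ∀ x : E, (∀ u ∈ U, 0 ≤ ⟪u, x⟫) → x = 0) {d : ℕ} (hd : Module.finrank ℝ E = d)
    (hd2 : 2 ≤ d) (hcard : U.card ≤ 2 * d) {u X : E} (hu : u ∈ U) (hX : X ∈ U) (huX : u ≠ X)
    (hA : ¬ Adj P u X) (h : ∀ w ∈ U, w ≠ u → w ≠ X → -w ∈ U) : ShapeB d P := by
  classical
  have hc := hP.compact
  obtain ⟨x1, hx1⟩ := hP.2
  have hnorm : ∀ w ∈ U, ‖w‖ = 1 := fun w hw => ((hU.1 w).mp hw).1
  have hne0 : ∀ w : E, ‖w‖ = 1 → w ≠ 0 := by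
    intro w hw h0
    rw [h0, norm_zero] at hw
    exact zero_ne_one hw
  have hlt : ∀ w : E, ‖w‖ = 1 → ⟪w, x1⟫ < spt P w := fun w hw => lt_spt hc hx1 (hne0 w hw)
  have hsum : ∀ w : E, ‖w‖ = 1 → 0 < spt P w + spt P (-w) := by
    intro w hw
    have e1 := hlt w hw
    have e2 := hlt (-w) (by rw [norm_neg, hw])
    rw [inner_neg_left] at e2
    linarith
  have hun := hnorm u hu
  have hXn := hnorm X hX
  -- all vectors orthogonal to `U \ {a}` vanish
  have hspan : ∀ a ∈ U, ∀ x : E, (∀ w ∈ U.erase a, ⟪w, x⟫ = 0) → x = 0 := by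
    intro a ha x hx
    rcases le_total 0 ⟪a, x⟫ with h1 | h1
    · apply hb
      intro w hw
      by_cases hwa : w = a
      · rw [hwa]; exact h1
      · rw [hx w (Finset.mem_erase.mpr ⟨hwa, hw⟩)]
    · have : -x = 0 := by
        apply hb
        intro w hw
        rw [inner_neg_right]
        by_cases hwa : w = a
        · rw [hwa]; linarith
        · rw [hx w (Finset.mem_erase.mpr ⟨hwa, hw⟩)]
          simp
      exact neg_eq_zero.mp this
  -- `U \ {a}` is not symmetric
  have hodd : ∀ a ∈ U, (∀ w ∈ U.erase a, -w ∈ U.erase a) → False := by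
    intro a ha hs
    obtain ⟨b, hbT, -, hli, hbc, -⟩ := ext_basis (s := ∅) (T := U.erase a)
      (linearIndependent_empty ℝ E) (by simp) (hspan a ha)
    have h1 := (sym_card hs hbT hli).1
    rw [Finset.card_erase_of_mem ha, hbc, hd] at h1
    have h2 : 0 < U.card := Finset.card_pos.mpr ⟨a, ha⟩
    omega
  -- the rest is symmetric
  set T := (U.erase u).erase X with hT
  have hmT : ∀ w, w ∈ T ↔ w ∈ U ∧ w ≠ u ∧ w ≠ X := by
    intro w
    rw [hT, Finset.mem_erase, Finset.mem_erase]
    tauto
  have hTneg : ∀ w ∈ T, -w ∈ T := by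
    by_cases hXu : X = -u
    · intro w hw
      obtain ⟨h1, h2, h3⟩ := (hmT w).mp hw
      refine (hmT _).mpr ⟨h w h1 h2 h3, ?_, ?_⟩
      · intro h4
        apply h3
        rw [hXu, ← h4, neg_neg]
      · intro h4
        apply h2
        rw [hXu] at h4
        exact neg_injective h4
    · have hnu : -u ∉ U := by
        intro hnu
        have hnX : -X ∈ U := by
          by_contra hnX
          apply hodd X hX
          intro w hw
          obtain ⟨h1, h2⟩ := Finset.mem_erase.mp hw
          have h3 : -w ∈ U := by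
            by_cases h4 : w = u
            · rw [h4]; exact hnu
            · exact h w h2 h4 h1
          refine Finset.mem_erase.mpr ⟨?_, h3⟩
          intro h5
          apply hnX
          rw [← h5, neg_neg]
          exact h2
        have hsym : ∀ w ∈ U, -w ∈ U := by
          intro w hw
          by_cases h1 : w = u
          · rw [h1]; exact hnu
          · by_cases h2 : w = X
            · rw [h2]; exact hnX
            · exact h w hw h1 h2
        obtain ⟨b, hbU, hub, hli, hbc, hborth⟩ := ext_basis (T := U)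
          (pair_indep hun hXn huX hXu) (by
            intro y hy
            rcases hy with rfl | hy
            · exact hu
            · rw [mem_singleton_iff] at hy
              rw [hy]
              exact hX) (fun x hx => hb x (fun w hw => (hx w hw).ge))
        have hall := (sym_card hsym hbU hli).2 (by rw [hbc, hd]; exact hcard)
        have hub1 : u ∈ b := hub (by simp)
        have hXb : X ∈ b := hub (by simp)
        let Ψ : E →ₗ[ℝ] (b → ℝ) := LinearMap.pi (fun w => innerₗ E (w : E))
        have hΨ : Function.Injective Ψ := by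
          rw [← LinearMap.ker_eq_bot, LinearMap.ker_eq_bot']
          intro x hx
          apply hborth
          intro w hw
          have := congrFun hx ⟨w, hw⟩
          simpa [Ψ] using this
        have hΨs : Function.Surjective Ψ := by
          rw [← LinearMap.injective_iff_surjective_of_finrank_eq_finrank]
          · exact hΨ
          · rw [Module.finrank_fintype_fun_eq_card, Fintype.card_coe, hbc]
        obtain ⟨x0, hx0⟩ := hΨs (fun w => if (w : E) = u then spt P u else
          if (w : E) = X then spt P X else ⟪(w : E), x1⟫)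
        have hval : ∀ w ∈ b, ⟪w, x0⟫ = if w = u then spt P u else
            if w = X then spt P X else ⟪w, x1⟫ := by
          intro w hw
          have := congrFun hx0 ⟨w, hw⟩
          simpa [Ψ] using this
        apply hA
        have h1 : ⟪u, x0⟫ = spt P u := by rw [hval u hub1, if_pos rfl]
        have h2 : ⟪X, x0⟫ = spt P X := by rw [hval X hXb, if_neg huX.symm, if_pos rfl]
        refine adj_of_point hP hU hu hX huX hXu h1 h2 ?_
        intro w hw hwu hwX
        rcases hall w hw with hwb | hwb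
        · rw [hval w hwb, if_neg hwu, if_neg hwX]
          exact hlt w (hnorm w hw)
        · have hwn := hnorm w hw
          by_cases h3 : -w = u
          · have h4 : w = -u := by rw [← h3, neg_neg]
            have h5 := hsum u hun
            rw [h4, inner_neg_left, h1]
            linarith
          · by_cases h6 : -w = X
            · have h4 : w = -X := by rw [← h6, neg_neg]
              have h5 := hsum X hXn
              rw [h4, inner_neg_left, h2]
              linarith
            · have h7 := hval (-w) hwb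
              rw [if_neg h3, if_neg h6, inner_neg_left, inner_neg_left, neg_inj] at h7
              rw [h7]
              exact hlt w hwn
      have hnX : -X ∉ U := by
        intro hnX
        apply hodd u hu
        intro w hw
        obtain ⟨h1, h2⟩ := Finset.mem_erase.mp hw
        have h3 : -w ∈ U := by
          by_cases h4 : w = X
          · rw [h4]; exact hnX
          · exact h w h2 h1 h4
        refine Finset.mem_erase.mpr ⟨?_, h3⟩
        intro h5
        apply hnu
        rw [← h5, neg_neg]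
        exact h2
      intro w hw
      obtain ⟨h1, h2, h3⟩ := (hmT w).mp hw
      refine (hmT _).mpr ⟨h w h1 h2 h3, ?_, ?_⟩
      · intro h4
        apply hnu
        rw [← h4, neg_neg]
        exact h1
      · intro h4
        apply hnX
        rw [← h4, neg_neg]
        exact h1
  have hTcard : T.card + 2 = U.card := by
    have h1 : X ∈ U.erase u := Finset.mem_erase.mpr ⟨huX.symm, hX⟩
    have h2 := Finset.card_erase_of_mem h1
    have h3 := Finset.card_erase_of_mem hu
    have h4 : 0 < (U.erase u).card := Finset.card_pos.mpr ⟨X, h1⟩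
    have h5 : 0 < U.card := Finset.card_pos.mpr ⟨u, hu⟩
    rw [← hT] at h2
    omega
  -- the basis
  obtain ⟨b, hbT, hub, hli, hbc, hborth⟩ := ext_basis (s := {u}) (T := insert u T)
    (LinearIndepOn.singleton (by simpa using hne0 u hun)) (by simp) (by
      intro x hx
      apply hspan X hX
      intro w hw
      obtain ⟨h1, h2⟩ := Finset.mem_erase.mp hw
      by_cases h3 : w = u
      · exact hx w (by rw [h3]; exact Finset.mem_insert_self _ _)
      · exact hx w (Finset.mem_insert_of_mem ((hmT w).mpr ⟨h2, h3, h1⟩)))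
  have hub1 : u ∈ b := hub (by simp)
  have hBT : b.erase u ⊆ T := by
    intro w hw
    obtain ⟨h1, h2⟩ := Finset.mem_erase.mp hw
    exact (Finset.mem_insert.mp (hbT h2)).resolve_left h1
  have hBc : (b.erase u).card = d - 1 := by
    rw [Finset.card_erase_of_mem hub1, hbc, hd]
  have hBli : LinearIndepOn ℝ id ((b.erase u : Finset E) : Set E) := hli.mono (by
    intro y hy
    exact Finset.mem_of_mem_erase hy)
  have hall := (sym_card hTneg hBT hBli).2 (by rw [hBc]; omega)
  let e := (Finset.equivFinOfCardEq hBc).symm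
  let w : Fin (d - 1) → E := fun i => (e i : E)
  have hwT : ∀ i, w i ∈ T := fun i => hBT (e i).2
  have hwn : ∀ i, ‖w i‖ = 1 := fun i => hnorm _ ((hmT _).mp (hwT i)).1
  have hwall : ∀ v ∈ T, ∃ i, v = w i ∨ v = -w i := by
    intro v hv
    rcases hall v hv with h1 | h1
    · refine ⟨e.symm ⟨v, h1⟩, Or.inl ?_⟩
      simp [w]
    · refine ⟨e.symm ⟨-v, h1⟩, Or.inr ?_⟩
      simp [w]
  have horth : ∀ x : E, (∀ i, ⟪w i, x⟫ = 0) → ⟪u, x⟫ = 0 → x = 0 := by
    intro x hx hx2
    apply hborth
    intro v hv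
    by_cases h1 : v = u
    · rw [h1]; exact hx2
    · have h2 := hx (e.symm ⟨v, Finset.mem_erase.mpr ⟨h1, hv⟩⟩)
      simpa [w] using h2
  have hwU : ∀ v ∈ U, v = u ∨ v = X ∨ ∃ i, v = w i ∨ v = -w i := by
    intro v hv
    by_cases h1 : v = u
    · exact Or.inl h1
    · by_cases h2 : v = X
      · exact Or.inr (Or.inl h2)
      · exact Or.inr (Or.inr (hwall v ((hmT v).mpr ⟨hv, h1, h2⟩)))
  -- coordinates
  let L : Fin (d - 1) → ℝ := fun i => spt P (w i) + spt P (-w i)
  have hL : ∀ i, 0 < L i := fun i => hsum _ (hwn i)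
  let Φ : E →ₗ[ℝ] (Fin (d - 1) → ℝ) × ℝ :=
    LinearMap.prod (LinearMap.pi (fun i => (L i)⁻¹ • innerₗ E (w i))) (-(innerₗ E u))
  have hΦ1 : ∀ x i, (Φ x).1 i = (L i)⁻¹ * ⟪w i, x⟫ := fun x i => rfl
  have hΦ2 : ∀ x, (Φ x).2 = -⟪u, x⟫ := fun x => rfl
  have hΦ : Function.Injective Φ := by
    rw [← LinearMap.ker_eq_bot, LinearMap.ker_eq_bot']
    intro x hx
    apply horth
    · intro i
      have h1 := hΦ1 x i
      rw [hx] at h1
      have h2 : (L i)⁻¹ * ⟪w i, x⟫ = 0 := h1.symm
      exact (mul_eq_zero.mp h2).resolve_left (inv_ne_zero (hL i).ne')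
    · have h1 := hΦ2 x
      rw [hx] at h1
      have h2 : (0 : ℝ) = -⟪u, x⟫ := h1
      linarith
  have hdim : Module.finrank ℝ E = Module.finrank ℝ ((Fin (d - 1) → ℝ) × ℝ) := by
    rw [hd, Module.finrank_prod, Module.finrank_fintype_fun_eq_card, Fintype.card_fin,
      Module.finrank_self]
    omega
  let Φe := LinearMap.linearEquivOfInjective Φ hΦ hdim
  let c : (Fin (d - 1) → ℝ) × ℝ := (fun i => (L i)⁻¹ * spt P (-w i), spt P u)
  let F : E ≃ᵃ[ℝ] (Fin (d - 1) → ℝ) × ℝ :=
    Φe.toAffineEquiv.trans (AffineEquiv.constVAdd ℝ _ c)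
  have hF : ∀ x, F x = c + Φ x := fun x => rfl
  have hF1 : ∀ x i, (F x).1 i = (L i)⁻¹ * (⟪w i, x⟫ + spt P (-w i)) := by
    intro x i
    rw [hF]
    show (L i)⁻¹ * spt P (-w i) + (L i)⁻¹ * ⟪w i, x⟫ = _
    ring
  have hF2 : ∀ x, (F x).2 = spt P u - ⟪u, x⟫ := by
    intro x
    rw [hF]
    show spt P u + -⟪u, x⟫ = _
    ring
  -- the vertical vector
  let e' : E := Φe.symm (0, 1)
  have he' : Φ e' = (0, 1) := Φe.apply_symm_apply (0, 1)
  have hwe : ∀ i, ⟪w i, e'⟫ = 0 := by
    intro i
    have h1 := hΦ1 e' i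
    rw [he'] at h1
    have h2 : (L i)⁻¹ * ⟪w i, e'⟫ = 0 := h1.symm
    exact (mul_eq_zero.mp h2).resolve_left (inv_ne_zero (hL i).ne')
  have hue : ⟪u, e'⟫ = -1 := by
    have h1 := hΦ2 e'
    rw [he'] at h1
    have h2 : (1 : ℝ) = -⟪u, e'⟫ := h1
    linarith
  set γ := ⟪X, e'⟫ with hγ
  have hγ0 : 0 < γ := by
    by_contra hcon
    push Not at hcon
    have h1 : -e' = 0 := by
      apply hb
      intro v hv
      rw [inner_neg_right]
      rcases hwU v hv with h1 | h1 | ⟨i, h1 | h1⟩
      · rw [h1, hue]; norm_num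
      · rw [h1, ← hγ]; linarith
      · rw [h1, hwe]; simp
      · rw [h1, inner_neg_left, hwe]; simp
    rw [neg_eq_zero] at h1
    rw [h1, inner_zero_right] at hue
    norm_num at hue
  let f : ((Fin (d - 1) → ℝ) × ℝ) ≃ᵃ[ℝ] E := F.symm
  have hfF : ∀ x, f (F x) = x := fun x => F.symm_apply_apply x
  have hFf : ∀ p, F (f p) = p := fun p => F.apply_symm_apply p
  have hfz : ∀ y : Fin (d - 1) → ℝ, ∀ z : ℝ, f (y, z) = f (y, 0) + z • e' := by
    intro y z
    apply F.injective
    rw [hFf, hF, map_add, map_smul, he']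
    have h1 := hFf (y, 0)
    rw [hF] at h1
    rw [← add_assoc, h1]
    ext <;> simp
  let A : (Fin (d - 1) → ℝ) →ᵃ[ℝ] ℝ :=
    (innerₗ E X).toAffineMap.comp ((f : ((Fin (d - 1) → ℝ) × ℝ) →ᵃ[ℝ] E).comp
      (LinearMap.inl ℝ (Fin (d - 1) → ℝ) ℝ).toAffineMap)
  have hA1 : ∀ y, A y = ⟪X, f (y, 0)⟫ := fun y => rfl
  let g : (Fin (d - 1) → ℝ) →ᵃ[ℝ] ℝ := γ⁻¹ • (AffineMap.const ℝ _ (spt P X) - A)
  have hg : ∀ y, g y = γ⁻¹ * (spt P X - ⟪X, f (y, 0)⟫) := fun y => rfl
  have hXp : ∀ y z, ⟪X, f (y, z)⟫ = spt P X - γ * (g y - z) := by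
    intro y z
    rw [hfz, inner_add_right, inner_smul_right, ← hγ, hg]
    field_simp
    ring
  have hwp : ∀ y z i, ⟪w i, f (y, z)⟫ = L i * y i - spt P (-w i) := by
    intro y z i
    have h1 := hF1 (f (y, z)) i
    rw [hFf] at h1
    have h2 : y i = (L i)⁻¹ * (⟪w i, f (y, z)⟫ + spt P (-w i)) := h1
    rw [h2, mul_inv_cancel_left₀ (hL i).ne']
    ring
  have hup : ∀ y z, ⟪u, f (y, z)⟫ = spt P u - z := by
    intro y z
    have h1 := hF2 (f (y, z))
    rw [hFf] at h1
    have h2 : z = spt P u - ⟪u, f (y, z)⟫ := h1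
    linarith
  have key : ∀ y z, f (y, z) ∈ P ↔ y ∈ Icc (0 : Fin (d - 1) → ℝ) 1 ∧ 0 ≤ z ∧ z ≤ g y := by
    intro y z
    constructor
    · intro hx
      refine ⟨⟨fun i => ?_, fun i => ?_⟩, ?_, ?_⟩
      · have h1 := spt_le hc hx (-w i)
        rw [inner_neg_left, hwp] at h1
        have h2 : 0 ≤ L i * y i := by linarith
        exact nonneg_of_mul_nonneg_right h2 (hL i)
      · have h1 := spt_le hc hx (w i)
        rw [hwp] at h1
        have h2 : L i * y i ≤ L i * 1 := by
          have : L i = spt P (w i) + spt P (-w i) := rfl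
          linarith
        exact le_of_mul_le_mul_left h2 (hL i)
      · have h1 := spt_le hc hx u
        rw [hup] at h1
        linarith
      · have h1 := spt_le hc hx X
        rw [hXp] at h1
        have h2 : 0 ≤ γ * (g y - z) := by linarith
        have h3 := nonneg_of_mul_nonneg_right h2 hγ0
        linarith
    · rintro ⟨⟨h0, h1⟩, h2, h3⟩
      rw [hU.2]
      intro v hv
      rcases hwU v hv with h4 | h4 | ⟨i, h4 | h4⟩
      · rw [h4, hup]; linarith
      · rw [h4, hXp]
        have := mul_nonneg hγ0.le (sub_nonneg.mpr h3)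
        linarith
      · rw [h4, hwp]
        have h5 : L i * y i ≤ L i * 1 := mul_le_mul_of_nonneg_left (h1 i) (hL i).le
        have : L i = spt P (w i) + spt P (-w i) := rfl
        linarith
      · rw [h4, inner_neg_left, hwp]
        have h5 : 0 ≤ L i * y i := mul_nonneg (hL i).le (h0 i)
        linarith
  -- the function `g` is nonnegative on the cube
  have hg0 : ∀ y ∈ Icc (0 : Fin (d - 1) → ℝ) 1, 0 ≤ g y := by
    intro y1 hy1
    by_contra hcon
    push Not at hcon
    set yb := (F x1).1 with hyb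
    set zb := (F x1).2 with hzb
    have hx1f : f (yb, zb) = x1 := hfF x1
    have hyb0 : ∀ i, 0 < yb i := by
      intro i
      have h1 := hlt (-w i) (by rw [norm_neg, hwn])
      rw [← hx1f, inner_neg_left, hwp] at h1
      have h2 : 0 < L i * yb i := by linarith
      exact pos_of_mul_pos_right h2 (hL i).le
    have hyb1 : ∀ i, yb i < 1 := by
      intro i
      have h1 := hlt (w i) (hwn i)
      rw [← hx1f, hwp] at h1
      have h2 : L i * yb i < L i * 1 := by
        have : L i = spt P (w i) + spt P (-w i) := rfl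
        linarith
      exact lt_of_mul_lt_mul_left h2 (hL i).le
    have hzb0 : 0 < zb := by
      have h1 := hlt u hun
      rw [← hx1f, hup] at h1
      linarith
    have hgb : 0 < g yb := by
      have h1 := hlt X hXn
      rw [← hx1f, hXp] at h1
      have h2 : 0 < γ * (g yb - zb) := by linarith
      have h3 := pos_of_mul_pos_right h2 hγ0.le
      linarith
    set t := g yb / (g yb - g y1) with ht
    have hden : 0 < g yb - g y1 := by linarith
    have ht0 : 0 < t := div_pos hgb hden
    have ht1 : t < 1 := by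
      rw [ht, div_lt_one hden]
      linarith
    set y0 := AffineMap.lineMap yb y1 t with hy0
    have hy0i : ∀ i, y0 i = (1 - t) * yb i + t * y1 i := by
      intro i
      rw [hy0, AffineMap.lineMap_apply]
      simp only [vsub_eq_sub, vadd_eq_add, Pi.add_apply, Pi.smul_apply, Pi.sub_apply, smul_eq_mul]
      ring
    have hgy0 : g y0 = 0 := by
      rw [hy0, AffineMap.apply_lineMap, AffineMap.lineMap_apply]
      simp only [vsub_eq_sub, vadd_eq_add, smul_eq_mul]
      rw [ht]
      field_simp
      ring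
    have hy00 : ∀ i, 0 < y0 i := by
      intro i
      rw [hy0i]
      have h1 := mul_pos (sub_pos.mpr ht1) (hyb0 i)
      have h2 := mul_nonneg ht0.le (hy1.1 i)
      have h3 : (0 : Fin (d - 1) → ℝ) i = 0 := rfl
      linarith
    have hy01 : ∀ i, y0 i < 1 := by
      intro i
      rw [hy0i]
      have h1 := mul_lt_mul_of_pos_left (hyb1 i) (sub_pos.mpr ht1)
      have h2 := mul_le_mul_of_nonneg_left (hy1.2 i) ht0.le
      have h3 : (1 : Fin (d - 1) → ℝ) i = 1 := rfl
      rw [h3] at h2
      linarith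
    have e1 : ⟪u, f (y0, 0)⟫ = spt P u := by rw [hup, sub_zero]
    have e2 : ⟪X, f (y0, 0)⟫ = spt P X := by rw [hXp, hgy0]; ring
    by_cases hXu : X = -u
    · have h1 := hsum u hun
      rw [hXu, inner_neg_left, e1] at e2
      linarith
    · apply hA
      refine adj_of_point hP hU hu hX huX hXu e1 e2 ?_
      intro v hv hvu hvX
      obtain ⟨i, h4 | h4⟩ := hwall v ((hmT v).mpr ⟨hv, hvu, hvX⟩)
      · rw [h4, hwp]
        have h5 := mul_lt_mul_of_pos_left (hy01 i) (hL i)
        have : L i = spt P (w i) + spt P (-w i) := rfl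
        linarith
      · rw [h4, inner_neg_left, hwp]
        have h5 := mul_pos (hL i) (hy00 i)
        linarith
  refine ⟨f, g, hg0, ?_⟩
  ext x
  constructor
  · intro hx
    refine ⟨F x, ?_, hfF x⟩
    have h1 : f ((F x).1, (F x).2) ∈ P := by
      show f (F x) ∈ P
      rw [hfF]
      exact hx
    exact (key _ _).mp h1
  · rintro ⟨p, hp, rfl⟩
    exact (key p.1 p.2).mpr hp

end Pool.PT24
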