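import Pool.Agent.PT24.FBase
import Pool.Agent.PT56.Aff

set_option autoImplicit false
set_option linter.unusedSectionVars false

/-!
# PT24/SufT: affine invariance of `Tiles`

`f` maps tiles to tiles (`f (t + s x) = f t + s • (f x - f 0)`), adjust the translation vector; interiors go to interiors.
-/

namespace Pool.PT24

open Set Filter Topology
open Pool.PT56

theorem tiles_affine' {V W : Type} [NormedAddCommGroup V] [NormedSpace ℝ V]
    [FiniteDimensional ℝ V] [NormedAddCommGroup W] [NormedSpace ℝ W] [FiniteDimensional ℝ W]
    (f : V ≃ᵃ[ℝ] W) {P : Set V} : Tiles (f '' P) ↔ Tiles P :=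
  tiles_affineEquiv f P

end Pool.PT24
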