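import Pool.Agent.PT24.PlB
import Pool.Agent.PT24.SufT
import Pool.Agent.PT56.ProdS

set_option autoImplicit false
set_option linter.unusedSectionVars false

/-!
# PT24/SufA: (triangle or quadrilateral) x cube tiles

Tilings of `Q` (`tiles_triQuad`) and of the cube (integer translates); the cube is centrally symmetric; product
of tilings (directly, or `tiles_pi` with two factors), `tiles_affine'`.
-/

namespace Pool.PT24

open Set Filter Topology
open Pool.PT56

/-- one coordinate of the cube tile with sign `σ` -/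
theorem cubeCoord {σ : ℝ} (hσ : σ = 1 ∨ σ = -1) (k y : ℝ) :
    σ * (y - (k + (1 - σ) / 2)) = y - k ∨ σ * (y - (k + (1 - σ) / 2)) = 1 - (y - k) := by
  rcases hσ with rfl | rfl
  · left; ring
  · right; ring

theorem tiles_prodCube {Q : Set (ℝ × ℝ)} (m : ℕ) (hT : Tiles Q) :
    Tiles (Q ×ˢ Icc (0 : Fin m → ℝ) 1) := by
  obtain ⟨ι, t, s, hT⟩ := tiles_iff.mp hT
  rw [tiles_iff]
  refine ⟨ι × (Fin m → ℤ), fun p => (t p.1, fun j => (p.2 j : ℝ) + (1 - s p.1) / 2),
    fun p => s p.1, fun p => hT.sgn _, ?_, ?_⟩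
  · rintro ⟨x, y⟩
    obtain ⟨i, hi⟩ := hT.cov x
    refine ⟨(i, fun j => ⌊y j⌋), ?_⟩
    rw [mem_tile (hT.sgn i)] at hi ⊢
    have hy : ∀ j, 0 ≤ s i * (y j - ((⌊y j⌋ : ℝ) + (1 - s i) / 2)) ∧
        s i * (y j - ((⌊y j⌋ : ℝ) + (1 - s i) / 2)) ≤ 1 := by
      intro j
      have h1 := Int.floor_le (y j)
      have h2 := Int.lt_floor_add_one (y j)
      rcases cubeCoord (hT.sgn i) (⌊y j⌋ : ℝ) (y j) with h | h
      · rw [h]; constructor <;> linarith
      · rw [h]; constructor <;> linarith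
    refine ⟨hi, ?_, ?_⟩
    · intro j
      exact (hy j).1
    · intro j
      exact (hy j).2
  · rintro ⟨i, k⟩ ⟨i', k'⟩ hne
    rw [Set.disjoint_left]
    rintro ⟨x, y⟩ hx hx'
    rw [mem_interior_tile (hT.sgn i), interior_prod_eq] at hx
    rw [mem_interior_tile (hT.sgn i'), interior_prod_eq] at hx'
    by_cases hii : i = i'
    · subst hii
      have hk : k ≠ k' := fun e => hne (by rw [e])
      obtain ⟨j, hj⟩ := Function.ne_iff.mp hk
      have hint : interior (Icc (0 : Fin m → ℝ) 1) = univ.pi fun _ => Ioo (0 : ℝ) 1 := by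
        rw [← pi_univ_Icc, interior_pi_set finite_univ]
        simp
      rw [hint] at hx hx'
      have h1 : s i * (y j - ((k j : ℝ) + (1 - s i) / 2)) ∈ Ioo (0 : ℝ) 1 := hx.2 j (mem_univ j)
      have h2 : s i * (y j - ((k' j : ℝ) + (1 - s i) / 2)) ∈ Ioo (0 : ℝ) 1 := hx'.2 j (mem_univ j)
      have h3 : (k j : ℝ) < y j ∧ y j < k j + 1 := by
        rcases cubeCoord (hT.sgn i) (k j : ℝ) (y j) with h | h
        · rw [h] at h1; exact ⟨by linarith [h1.1], by linarith [h1.2]⟩
        · rw [h] at h1; exact ⟨by linarith [h1.2], by linarith [h1.1]⟩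
      have h4 : (k' j : ℝ) < y j ∧ y j < k' j + 1 := by
        rcases cubeCoord (hT.sgn i) (k' j : ℝ) (y j) with h | h
        · rw [h] at h2; exact ⟨by linarith [h2.1], by linarith [h2.2]⟩
        · rw [h] at h2; exact ⟨by linarith [h2.2], by linarith [h2.1]⟩
      have h5 : (k j : ℝ) < (k' j : ℝ) + 1 := by linarith
      have h6 : (k' j : ℝ) < (k j : ℝ) + 1 := by linarith
      have h7 : k j < k' j + 1 := by exact_mod_cast h5
      have h8 : k' j < k j + 1 := by exact_mod_cast h6
      exact hj (by omega)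
    · have := hT.dis i i' hii
      rw [Set.disjoint_left] at this
      refine this (a := x) ?_ ?_
      · rw [mem_interior_tile (hT.sgn i)]
        exact hx.1
      · rw [mem_interior_tile (hT.sgn i')]
        exact hx'.1

theorem sufA {E : Type} [NormedAddCommGroup E] [NormedSpace ℝ E] [FiniteDimensional ℝ E] {d : ℕ}
    {P : Set E} (h : ShapeA d P) : Tiles P := by
  obtain ⟨Q, f, hQ, rfl⟩ := h
  rw [tiles_affine' f]
  exact tiles_prodCube _ (tiles_triQuad hQ)

end Pool.PT24
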