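import Pool.Agent.PT24.SufT

set_option autoImplicit false
set_option linter.unusedSectionVars false

/-!
# PT24/SufB: a truncated parallelepiped tiles

`T = {(y, z) | y in the cube, 0 ≤ z ≤ g y}`.
`H = g 0 + g 1 = g y + g (1 - y)` (constant, `≥ 0`; if `H = 0` then `g = 0` on the cube and `P` has no interior: use
`hi`).  The box `[0,1]^(d-1) × [0, H]` is the union of `T` and `(1, H) - T` (`z ≤ g y` or `z ≥ g y`), the interiors are
disjoint; the boxes `(k, m H) + box` tile.  Then `tiles_affine'`.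
-/

namespace Pool.PT24

open Set Filter Topology
open Pool.PT56

/-- a point of the interior can be moved a little in every direction -/
private theorem move {V : Type} [NormedAddCommGroup V] [NormedSpace ℝ V] {S : Set V} {x : V}
    (hx : x ∈ interior S) (v : V) : ∃ ε : ℝ, 0 < ε ∧ x + ε • v ∈ S := by
  have hc : Continuous fun e : ℝ => x + e • v := by fun_prop
  have ho : IsOpen ((fun e : ℝ => x + e • v) ⁻¹' interior S) := isOpen_interior.preimage hc
  have h0 : (0 : ℝ) ∈ (fun e : ℝ => x + e • v) ⁻¹' interior S := by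
    simpa using hx
  obtain ⟨δ, hδ, h⟩ := Metric.isOpen_iff.1 ho 0 h0
  refine ⟨δ / 2, by linarith, interior_subset (h ?_)⟩
  rw [Metric.mem_ball, dist_zero_right, Real.norm_eq_abs, abs_of_pos (by linarith)]
  linarith

/-- the truncated box -/
private def TB (n : ℕ) (g : (Fin n → ℝ) →ᵃ[ℝ] ℝ) : Set ((Fin n → ℝ) × ℝ) :=
  {p | p.1 ∈ Icc (0 : Fin n → ℝ) 1 ∧ 0 ≤ p.2 ∧ p.2 ≤ g p.1}

private theorem g_symm {n : ℕ} (g : (Fin n → ℝ) →ᵃ[ℝ] ℝ) (y : Fin n → ℝ) :
    g y + g (1 - y) = g 0 + g 1 := by
  have h : ∀ x, g x = g.linear x + g 0 := fun x => congrFun g.decomp x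
  rw [h y, h (1 - y), h 1, map_sub]
  ring

private theorem TB_strict {n : ℕ} {g : (Fin n → ℝ) →ᵃ[ℝ] ℝ} {p : (Fin n → ℝ) × ℝ}
    (hp : p ∈ interior (TB n g)) :
    (∀ i, 0 < p.1 i ∧ p.1 i < 1) ∧ 0 < p.2 ∧ p.2 < g p.1 := by
  refine ⟨fun i => ⟨?_, ?_⟩, ?_, ?_⟩
  · obtain ⟨ε, hε, h⟩ := move hp (-Pi.single i 1, 0)
    have := h.1.1 i
    simp at this
    linarith
  · obtain ⟨ε, hε, h⟩ := move hp (Pi.single i 1, 0)
    have := h.1.2 i
    simp at this
    linarith
  · obtain ⟨ε, hε, h⟩ := move hp (0, -1)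
    have := h.2.1
    simp at this
    linarith
  · obtain ⟨ε, hε, h⟩ := move hp (0, 1)
    have := h.2.2
    simp at this
    linarith

private theorem tiles_TB {n : ℕ} {g : (Fin n → ℝ) →ᵃ[ℝ] ℝ}
    (hg : ∀ y ∈ Icc (0 : Fin n → ℝ) 1, 0 ≤ g y) (hi : (interior (TB n g)).Nonempty) :
    Tiles (TB n g) := by
  set H : ℝ := g 0 + g 1 with hH
  have hle : ∀ y ∈ Icc (0 : Fin n → ℝ) 1, g y ≤ H := by
    intro y hy
    have h1 := g_symm g y
    have h2 := hg (1 - y) ⟨fun i => by
      have := hy.2 i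
      simp only [Pi.zero_apply, Pi.sub_apply, Pi.one_apply] at this ⊢
      linarith, fun i => by
      have := hy.1 i
      simp only [Pi.zero_apply, Pi.sub_apply, Pi.one_apply] at this ⊢
      linarith⟩
    linarith
  have hH0 : 0 < H := by
    obtain ⟨p, hp⟩ := hi
    have h1 := TB_strict hp
    have h2 := hle p.1 (interior_subset hp).1
    linarith [h1.2.1, h1.2.2]
  rw [tiles_iff]
  let t : ((Fin n → ℤ) × ℤ) × Bool → (Fin n → ℝ) × ℝ := fun a =>
    if a.2 then (fun i => (a.1.1 i : ℝ) + 1, ((a.1.2 : ℝ) + 1) * H)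
    else (fun i => (a.1.1 i : ℝ), (a.1.2 : ℝ) * H)
  let s : ((Fin n → ℤ) × ℤ) × Bool → ℝ := fun a => if a.2 then -1 else 1
  have hs : ∀ a, s a = 1 ∨ s a = -1 := by
    rintro ⟨a, b⟩
    cases b
    · left; rfl
    · right; rfl
  have hf : ∀ (k : Fin n → ℤ) (m : ℤ) (x : (Fin n → ℝ) × ℝ),
      s ((k, m), false) • (x - t ((k, m), false)) =
        (fun i => x.1 i - k i, x.2 - (m : ℝ) * H) := by
    intro k m x
    simp only [s, t, Bool.false_eq_true, if_false, one_smul]
    rfl
  have ht : ∀ (k : Fin n → ℤ) (m : ℤ) (x : (Fin n → ℝ) × ℝ),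
      s ((k, m), true) • (x - t ((k, m), true)) =
        (1 - fun i => x.1 i - k i, ((m : ℝ) + 1) * H - x.2) := by
    intro k m x
    simp only [s, t, if_true]
    ext i
    · simp
      ring
    · simp
  refine ⟨((Fin n → ℤ) × ℤ) × Bool, t, s, hs, ?_, ?_⟩
  · intro x
    set k : Fin n → ℤ := fun i => ⌊x.1 i⌋ with hk
    set m : ℤ := ⌊x.2 / H⌋ with hm
    have hm1 : (m : ℝ) * H ≤ x.2 := by
      have := Int.floor_le (x.2 / H)
      rw [← hm, le_div_iff₀ hH0] at this
      exact this
    have hm2 : x.2 < ((m : ℝ) + 1) * H := by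
      have := Int.lt_floor_add_one (x.2 / H)
      rw [← hm, div_lt_iff₀ hH0] at this
      exact this
    have hy : (fun i => x.1 i - (k i : ℝ)) ∈ Icc (0 : Fin n → ℝ) 1 := by
      refine ⟨fun i => ?_, fun i => ?_⟩
      · have := Int.floor_le (x.1 i)
        simp only [Pi.zero_apply, hk]
        linarith
      · have := Int.lt_floor_add_one (x.1 i)
        simp only [Pi.one_apply, hk]
        linarith
    by_cases h : x.2 - (m : ℝ) * H ≤ g (fun i => x.1 i - (k i : ℝ))
    · refine ⟨((k, m), false), ?_⟩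
      rw [mem_tile (hs _), hf]
      exact ⟨hy, by simpa using hm1, h⟩
    · refine ⟨((k, m), true), ?_⟩
      rw [mem_tile (hs _), ht]
      have h1 := g_symm g (fun i => x.1 i - (k i : ℝ))
      push Not at h
      refine ⟨⟨fun i => ?_, fun i => ?_⟩, ?_, ?_⟩
      · have := hy.2 i
        simp only [Pi.zero_apply, Pi.sub_apply, Pi.one_apply] at this ⊢
        linarith
      · have := hy.1 i
        simp only [Pi.zero_apply, Pi.sub_apply, Pi.one_apply] at this ⊢
        linarith
      · show 0 ≤ ((m : ℝ) + 1) * H - x.2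
        linarith
      · show ((m : ℝ) + 1) * H - x.2 ≤ g (1 - fun i => x.1 i - (k i : ℝ))
        linarith
  · have key : ∀ (k : Fin n → ℤ) (m : ℤ) (b : Bool) (x : (Fin n → ℝ) × ℝ),
        x ∈ interior (tile (TB n g) (t ((k, m), b)) (s ((k, m), b))) →
        (∀ i, (k i : ℝ) < x.1 i ∧ x.1 i < k i + 1) ∧ (m : ℝ) * H < x.2 ∧
          x.2 < ((m : ℝ) + 1) * H ∧
          (b = false → x.2 - (m : ℝ) * H < g (fun i => x.1 i - (k i : ℝ))) ∧
          (b = true → g (fun i => x.1 i - (k i : ℝ)) < x.2 - (m : ℝ) * H) := by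
      intro k m b x hx
      rw [mem_interior_tile (hs _)] at hx
      cases b
      · rw [hf] at hx
        have h1 := TB_strict hx
        have h2 := hle _ (interior_subset hx).1
        obtain ⟨h3, h4, h5⟩ := h1
        simp only at h3 h4 h5 h2
        refine ⟨fun i => ⟨by linarith [(h3 i).1], by linarith [(h3 i).2]⟩, by linarith,
          by linarith, fun _ => h5, fun h => by simp at h⟩
      · rw [ht] at hx
        have h1 := TB_strict hx
        obtain ⟨h3, h4, h5⟩ := h1
        have h6 := g_symm g (fun i => x.1 i - (k i : ℝ))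
        have h7 : (fun i => x.1 i - (k i : ℝ)) ∈ Icc (0 : Fin n → ℝ) 1 := by
          refine ⟨fun i => ?_, fun i => ?_⟩
          · have := (h3 i).2
            simp only [Pi.zero_apply, Pi.sub_apply, Pi.one_apply] at this ⊢
            linarith
          · have := (h3 i).1
            simp only [Pi.zero_apply, Pi.sub_apply, Pi.one_apply] at this ⊢
            linarith
        have h8 := hg _ h7
        simp only [Pi.sub_apply, Pi.one_apply] at h3 h4 h5
        refine ⟨fun i => ⟨by linarith [(h3 i).2], by linarith [(h3 i).1]⟩, by linarith,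
          by linarith, fun h => by simp at h, fun _ => by linarith⟩
    rintro ⟨⟨k, m⟩, b⟩ ⟨⟨k', m'⟩, b'⟩ hne
    rw [Set.disjoint_left]
    intro x hx hx'
    apply hne
    obtain ⟨h1, h2, h3, h4, h5⟩ := key k m b x hx
    obtain ⟨h1', h2', h3', h4', h5'⟩ := key k' m' b' x hx'
    have ek : k = k' := by
      funext i
      have e1 : (k i : ℝ) < k' i + 1 := by linarith [(h1 i).1, (h1' i).2]
      have e2 : (k' i : ℝ) < k i + 1 := by linarith [(h1' i).1, (h1 i).2]
      have e1' : k i < k' i + 1 := by exact_mod_cast e1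
      have e2' : k' i < k i + 1 := by exact_mod_cast e2
      omega
    have em : m = m' := by
      have e1 : (m : ℝ) < m' + 1 := lt_of_mul_lt_mul_right (by linarith) hH0.le
      have e2 : (m' : ℝ) < m + 1 := lt_of_mul_lt_mul_right (by linarith) hH0.le
      have e1' : m < m' + 1 := by exact_mod_cast e1
      have e2' : m' < m + 1 := by exact_mod_cast e2
      omega
    subst ek
    subst em
    have eb : b = b' := by
      cases b <;> cases b'
      · rfl
      · exact absurd (h4 rfl) (not_lt.2 (h5' rfl).le)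
      · exact absurd (h4' rfl) (not_lt.2 (h5 rfl).le)
      · rfl
    rw [eb]

theorem sufB {E : Type} [NormedAddCommGroup E] [NormedSpace ℝ E] [FiniteDimensional ℝ E] {d : ℕ}
    {P : Set E} (h : ShapeB d P) (hi : (interior P).Nonempty) : Tiles P := by
  obtain ⟨f, g, hg, rfl⟩ := h
  rw [tiles_affine']
  refine tiles_TB (n := d - 1) hg ?_
  have e : interior (f '' TB (d - 1) g) = f '' interior (TB (d - 1) g) :=
    (f.toHomeomorphOfFiniteDimensional.image_interior _).symm
  change (interior (f '' TB (d - 1) g)).Nonempty at hi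
  rw [e] at hi
  exact hi.of_image

end Pool.PT24
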