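import Pool.Agent.PT24.Lin
import Pool.Agent.PT24.Facts
import Pool.Agent.PT24.ShA
import Pool.Agent.PT24.ShB
import Pool.Agent.PT24.PlA
import Pool.Agent.PT24.SufA
import Pool.Agent.PT24.SufB

set_option autoImplicit false
set_option linter.unusedSectionVars false

/-!
# PT24/Few: polytopes with at most 2d facets
-/

namespace Pool.PT24

open Set Filter Topology MeasureTheory
open scoped RealInnerProductSpace ENNReal
open Pool.PT56

variable {E : Type} [NormedAddCommGroup E] [InnerProductSpace ℝ E] [FiniteDimensional ℝ E]
  [MeasurableSpace E] [BorelSpace E]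

theorem few {P : Set E} (hP : Polytope P) {d : ℕ} (hd : Module.finrank ℝ E = d) (hd2 : 2 ≤ d)
    {U : Finset E} (hU : Nrm P U) (hcard : U.card ≤ 2 * d) :
    Tiles P ↔ ShapeA d P ∨ ShapeB d P := by
  constructor
  · intro hT
    have hN := facts hP hT (hd ▸ hd2) hU
    rcases lin hN hd hd2 hcard with ⟨Pl, hPl, h1, h2, h3⟩ | ⟨u, hu, X, hX, huX, hA, h⟩
    · left
      obtain ⟨f, M, hM, hPf⟩ := shA hP hU hN.bdd hd hd2 hPl h1 h2 h3
      refine ⟨_, f, triQuad_of_halfplanes hM ?_ ?_, hPf⟩
      · -- compact: the projection of the preimage of `P`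
        have hc : IsCompact (f.symm '' P) := hP.compact.image
          (AffineEquiv.continuous_of_finiteDimensional f.symm)
        have e : f.symm '' P = {q : ℝ × ℝ | ∀ m ∈ M, m.1.1 * q.1 + m.1.2 * q.2 ≤ m.2} ×ˢ
            Icc (0 : Fin (d - 2) → ℝ) 1 := by
          rw [hPf, ← Set.image_comp]
          simp
        rw [e] at hc
        have := hc.image continuous_fst
        rwa [Set.fst_image_prod _ ⟨0, by simp⟩] at this
      · obtain ⟨x, hx⟩ := hP.2
        have hcont : Continuous (fun q : (ℝ × ℝ) => f (q, (f.symm x).2)) :=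
          (AffineEquiv.continuous_of_finiteDimensional f).comp (by fun_prop)
        refine ⟨(f.symm x).1, ?_⟩
        rw [mem_interior]
        refine ⟨(fun q : (ℝ × ℝ) => f (q, (f.symm x).2)) ⁻¹' interior P, ?_,
          isOpen_interior.preimage hcont, ?_⟩
        · intro q hq
          have h1 : f (q, (f.symm x).2) ∈ P := interior_subset hq
          rw [hPf] at h1
          obtain ⟨p, hp, hpe⟩ := h1
          have h2 := f.injective hpe
          rw [h2] at hp
          exact hp.1
        · show f ((f.symm x).1, (f.symm x).2) ∈ interior P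
          simpa using hx
    · right
      exact shB hP hU hN.bdd hd hd2 hcard hu hX huX hA h
  · rintro (h | h)
    · exact sufA h
    · exact sufB h hP.2

end Pool.PT24
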