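import Pool.Agent.PT24.Few
import Pool.Agent.PT56.FDim

set_option autoImplicit false
set_option linter.unusedSectionVars false

/-!
# PT24/FewR: `few` in terms of the facets as sets
-/

namespace Pool.PT24

open Set Filter Topology MeasureTheory
open scoped RealInnerProductSpace ENNReal
open Pool.PT56

variable {E : Type} [NormedAddCommGroup E] [InnerProductSpace ℝ E] [FiniteDimensional ℝ E]
  [MeasurableSpace E] [BorelSpace E]

theorem facets_ncard {P : Set E} (hP : Polytope P) {U : Finset E}
    (hU : ∀ u, u ∈ U ↔ Facet P u) : (Facets P).ncard = U.card := by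
  have h1 : FN P = (U : Set E) := by
    ext u
    rw [mem_FN_iff_facet, Finset.mem_coe, hU]
  rw [facets_eq hP, Set.ncard_image_of_injOn (face_inj hP), h1, Set.ncard_coe_finset]

theorem few_facets {P : Set E} (hP : Polytope P) {d : ℕ} (hd : Module.finrank ℝ E = d)
    (hd2 : 2 ≤ d) (hc : (Facets P).ncard ≤ 2 * d) : Tiles P ↔ ShapeA d P ∨ ShapeB d P := by
  obtain ⟨U, hU, hU'⟩ := hrepF hP
  rw [facets_ncard hP hU] at hc
  exact few hP hd hd2 ⟨hU, hU'⟩ hc

end Pool.PT24
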