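import Pool.Agent.PT24.FBase

set_option autoImplicit false
set_option linter.unusedSectionVars false

/-!
# PT24/Lin: the linear algebra of the normals (helper24)

Paper: note 3466.
-/

namespace Pool.PT24

open Set
open scoped RealInnerProductSpace

variable {E : Type} [NormedAddCommGroup E] [InnerProductSpace ℝ E] [FiniteDimensional ℝ E]

variable {N : Finset E} {A : E → E → Prop}

/-- unit vectors on a line -/
theorem unit_smul {x y : E} (hx : ‖x‖ = 1) (hy : ‖y‖ = 1) {t : ℝ} (h : x = t • y) :
    x = y ∨ x = -y := by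
  have h1 : |t| = 1 := by
    rw [h, norm_smul, hy, mul_one, Real.norm_eq_abs] at hx
    exact hx
  rcases (abs_eq zero_le_one).1 h1 with h2 | h2
  · left; rw [h, h2, one_smul]
  · right; rw [h, h2, neg_smul, one_smul]

theorem NData.ne_zero (h : NData N A) {u : E} (hu : u ∈ N) : u ≠ 0 := by
  intro h0
  have := h.unit u hu
  rw [h0] at this
  simp at this

theorem NData.not_line (h : NData N A) {u w : E} (hA : A u w) (t : ℝ) : w ≠ t • u := by
  intro hw
  obtain ⟨h1, h2, h3, h4⟩ := h.irr u w hA
  rcases unit_smul (h.unit w h2) (h.unit u h1) hw with h5 | h5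
  · exact h3 h5
  · exact h4 h5

/-- The structure around a single facet. -/
structure Str (A : E → E → Prop) {m : ℕ} (u : E) (a b : Fin m → E)
    (φ : E →ₗ[ℝ] (Fin m → ℝ)) (ψ : E →ₗ[ℝ] ℝ) : Prop where
  Aa : ∀ i, A u (a i)
  Ab : ∀ i, A u (b i)
  ab : ∀ i, ∃ α β : ℝ, 0 < β ∧ b i = α • u - β • a i
  all : ∀ w, A u w → ∃ i, w = a i ∨ w = b i
  φu : φ u = 0
  φa : ∀ i, φ (a i) = Pi.single i 1
  ψu : ψ u = 1
  ψa : ∀ i, ψ (a i) = 0
  inj : ∀ x y, φ x = φ y → ψ x = ψ y → x = y

/-- the partner of a neighbour is unique -/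
theorem NData.partner (h : NData N A) {u w w' w'' : E} (h1 : A u w) (h2 : A u w')
    (h3 : ∃ a b : ℝ, 0 < b ∧ w' = a • u - b • w) (h4 : A u w'') {a b : ℝ} (hb : b ≠ 0)
    (h5 : w'' = a • u + b • w) : w'' = w ∨ w'' = w' := by
  rcases lt_or_gt_of_ne hb with hb | hb
  · right
    obtain ⟨a', b', hb', h6⟩ := h3
    apply h.uniq u w' w'' h2 h4
    refine ⟨a + b * a' / b', -b / b', div_pos (by linarith) hb', ?_⟩
    rw [h5, h6, smul_sub, smul_smul, smul_smul]
    have e1 : -b / b' * b' = -b := by field_simp
    rw [e1, neg_smul, sub_neg_eq_add, ← add_assoc, ← add_smul]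
    congr 2
    ring
  · left
    exact h.uniq u w w'' h1 h4 ⟨a, b, hb, h5⟩

theorem exists_str (h : NData N A) {m : ℕ} (hd : Module.finrank ℝ E = m + 1)
    (hN : N.card ≤ 2 * (m + 1)) {u : E} (hu : u ∈ N) (hs : -u ∉ N) :
    ∃ (a b : Fin m → E) (φ : E →ₗ[ℝ] (Fin m → ℝ)) (ψ : E →ₗ[ℝ] ℝ), Str A u a b φ ψ := by
  classical
  set S : Finset E := N.filter (A u) with hS
  have hSA : ∀ w, w ∈ S ↔ A u w := by
    intro w
    simp only [hS, Finset.mem_filter]
    exact ⟨fun h => h.2, fun hw => ⟨(h.irr u w hw).2.1, hw⟩⟩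
  -- spanning
  have hspan : Submodule.span ℝ (insert u (S : Set E)) = ⊤ := by
    rw [← Submodule.orthogonal_eq_bot_iff, Submodule.eq_bot_iff]
    intro x hx
    rw [Submodule.mem_orthogonal] at hx
    apply h.span u hu hs x
    · exact hx u (Submodule.subset_span (mem_insert _ _))
    · intro w hw
      exact hx w (Submodule.subset_span (mem_insert_of_mem _ ((hSA w).2 hw)))
  have hli : LinearIndepOn ℝ id ({u} : Set E) := LinearIndepOn.singleton (h.ne_zero hu)
  obtain ⟨B, hB1, hB2, hB3, hB4⟩ := exists_linearIndepOn_id_extension hli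
    (singleton_subset_iff.2 (mem_insert u (S : Set E)))
  have hBspan : Submodule.span ℝ B = ⊤ := by
    rw [eq_top_iff, ← hspan]
    exact Submodule.span_le.2 hB3
  have hBfin : B.Finite := (S.finite_toSet.insert u).subset hB1
  haveI : Fintype B := hBfin.fintype
  have hBcard : Fintype.card B = m + 1 := by
    have hb : LinearIndependent ℝ (fun x : B => (x : E)) := hB4.linearIndependent
    let bas := Module.Basis.mk hb (by rw [Subtype.range_coe, hBspan])
    rw [← hd, Module.finrank_eq_card_basis bas]
  have huB : u ∈ B := hB2 (mem_singleton u)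
  -- enumerate `B \ {u}`
  set C : Finset E := hBfin.toFinset.erase u with hC
  have hCcard : C.card = m := by
    rw [hC, Finset.card_erase_of_mem (by simpa using huB)]
    have : hBfin.toFinset.card = m + 1 := by
      rw [← hBcard, ← Set.toFinset_card]
      congr 1
      ext x
      simp
    omega
  let e := (C.equivFinOfCardEq hCcard).symm
  set a : Fin m → E := fun i => (e i : E) with ha
  have haC : ∀ i, a i ∈ C := fun i => (e i).2
  have haB : ∀ i, a i ∈ B ∧ a i ≠ u := by
    intro i
    have := haC i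
    rw [hC, Finset.mem_erase] at this
    exact ⟨by simpa using this.2, this.1⟩
  have haA : ∀ i, A u (a i) := by
    intro i
    rw [← hSA]
    rcases hB1 (haB i).1 with h1 | h1
    · exact absurd h1 (haB i).2
    · exact h1
  have hainj : Function.Injective a := by
    intro i j hij
    exact e.injective (Subtype.ext hij)
  have hLI : LinearIndependent ℝ (Fin.cons u a : Fin (m + 1) → E) := by
    have hinj : Function.Injective (Fin.cons u a : Fin (m + 1) → E) := by
      rw [Fin.cons_injective_iff]
      refine ⟨?_, hainj⟩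
      rintro ⟨i, hi⟩
      exact (haB i).2 hi
    let g : Fin (m + 1) → B := fun i => ⟨(Fin.cons u a : Fin (m + 1) → E) i, by
      refine Fin.cases ?_ (fun j => ?_) i
      · simpa using huB
      · simpa using (haB j).1⟩
    have hg : Function.Injective g := fun i j hij => hinj (congrArg Subtype.val hij)
    exact hB4.linearIndependent.comp g hg
  let bas : Module.Basis (Fin (m + 1)) ℝ E :=
    basisOfLinearIndependentOfCardEqFinrank hLI (by rw [hd]; simp)
  have hbas0 : bas 0 = u := by simp [bas]
  have hbass : ∀ i : Fin m, bas i.succ = a i := by intro i; simp [bas]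
  set φ : E →ₗ[ℝ] (Fin m → ℝ) := LinearMap.pi (fun i => bas.coord i.succ) with hφ
  set ψ : E →ₗ[ℝ] ℝ := bas.coord 0 with hψ
  have hφu : φ u = 0 := by
    ext i
    rw [← hbas0]
    simp [hφ, Fin.succ_ne_zero, Finsupp.single_apply, (Fin.succ_ne_zero i).symm]
  have hφa : ∀ i, φ (a i) = Pi.single i 1 := by
    intro i
    ext j
    rw [← hbass]
    simp [hφ, Finsupp.single_apply, Pi.single_apply, eq_comm]
  have hψu : ψ u = 1 := by
    rw [← hbas0]
    simp [hψ]
  have hψa : ∀ i, ψ (a i) = 0 := by
    intro i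
    rw [← hbass]
    simp [hψ, Finsupp.single_apply, Fin.succ_ne_zero]
  have hinj : ∀ x y, φ x = φ y → ψ x = ψ y → x = y := by
    intro x y h1 h2
    apply bas.repr.injective
    ext i
    refine Fin.cases ?_ (fun j => ?_) i
    · exact h2
    · have := congrFun h1 j
      simpa [hφ] using this
  -- partners
  choose b hAb hb using fun i => h.opp u hu hs (a i) (haA i)
  have hφb : ∀ i, ∃ β : ℝ, 0 < β ∧ φ (b i) = Pi.single i (-β) := by
    intro i
    obtain ⟨α, β, hβ, hbi⟩ := hb i
    refine ⟨β, hβ, ?_⟩
    rw [hbi, map_sub, map_smul, map_smul, hφu, hφa]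
    ext j
    by_cases hj : j = i
    · subst hj; simp
    · simp [Pi.single_apply, hj]
  have hbinj : Function.Injective b := by
    intro i j hij
    obtain ⟨β, hβ, h1⟩ := hφb i
    obtain ⟨β', hβ', h2⟩ := hφb j
    rw [hij, h2] at h1
    have := congrFun h1 j
    rw [Pi.single_eq_same, Pi.single_apply] at this
    by_contra hne
    rw [if_neg (fun e => hne e.symm)] at this
    linarith
  have hab : ∀ i j, a i ≠ b j := by
    intro i j hij
    obtain ⟨β, hβ, h1⟩ := hφb j
    rw [← hij, hφa] at h1
    have := congrFun h1 j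
    rw [Pi.single_eq_same, Pi.single_apply] at this
    split_ifs at this <;> linarith
  refine ⟨a, b, φ, ψ, haA, hAb, hb, ?_, hφu, hφa, hψu, hψa, hinj⟩
  -- all neighbours
  intro w hw
  by_contra hcon
  push Not at hcon
  obtain ⟨w', hw', α, β, hβ, hw'e⟩ := h.opp u hu hs w hw
  have hww' : w ≠ w' := by
    intro hh
    rw [← hh] at hw'e
    apply h.not_line hw (α / (1 + β))
    have : (1 + β) • w = α • u := by
      rw [add_smul, one_smul]
      nth_rw 1 [hw'e]
      abel
    rw [div_eq_inv_mul, mul_smul, ← this, smul_smul, inv_mul_cancel₀ (by positivity), one_smul]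
  -- `w'` is not in the list
  have hback : w = (α / β) • u - (1 / β) • w' := by
    rw [hw'e, smul_sub, smul_smul, smul_smul]
    have e1 : 1 / β * β = 1 := by field_simp
    rw [e1, one_smul, one_div, ← div_eq_inv_mul]
    abel
  have hw'a : ∀ i, w' ≠ a i := by
    intro i hi
    rw [hi] at hback
    rcases h.partner (haA i) (hAb i) (hb i) hw (a := α / β) (b := -(1 / β))
      (by simp; positivity) (by rw [hback, neg_smul, sub_eq_add_neg]) with h1 | h1
    · exact (hcon i).1 h1
    · exact (hcon i).2 h1
  have hw'b : ∀ i, w' ≠ b i := by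
    intro i hi
    obtain ⟨α', β', hβ', hbi⟩ := hb i
    rw [hi, hbi] at hback
    rcases h.partner (haA i) (hAb i) (hb i) hw (a := α / β - α' / β) (b := β' / β)
      (by positivity) (by
        rw [hback, smul_sub, smul_smul, smul_smul, sub_smul]
        have e1 : 1 / β * α' = α' / β := by ring
        have e2 : 1 / β * β' = β' / β := by ring
        rw [e1, e2]
        abel) with h1 | h1
    · exact (hcon i).1 h1
    · exact (hcon i).2 h1
  -- counting
  have hsub : (Finset.univ.image a ∪ Finset.univ.image b) ∪ {w, w'} ⊆ N.erase u := by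
    intro x hx
    rw [Finset.mem_erase]
    have hx' : A u x := by
      simp only [Finset.mem_union, Finset.mem_image, Finset.mem_univ, true_and,
        Finset.mem_insert, Finset.mem_singleton] at hx
      rcases hx with (⟨i, rfl⟩ | ⟨i, rfl⟩) | (rfl | rfl)
      · exact haA i
      · exact hAb i
      · exact hw
      · exact hw'
    exact ⟨(h.irr u x hx').2.2.1, (h.irr u x hx').2.1⟩
  have hc1 := Finset.card_le_card hsub
  rw [Finset.card_erase_of_mem hu] at hc1
  have hd1 : Disjoint (Finset.univ.image a) (Finset.univ.image b) := by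
    rw [Finset.disjoint_left]
    intro x hx hx'
    simp only [Finset.mem_image, Finset.mem_univ, true_and] at hx hx'
    obtain ⟨i, rfl⟩ := hx
    obtain ⟨j, hj⟩ := hx'
    exact hab i j hj.symm
  have hd2 : Disjoint (Finset.univ.image a ∪ Finset.univ.image b) ({w, w'} : Finset E) := by
    rw [Finset.disjoint_left]
    intro x hx hx'
    simp only [Finset.mem_union, Finset.mem_image, Finset.mem_univ, true_and,
      Finset.mem_insert, Finset.mem_singleton] at hx hx'
    rcases hx' with rfl | rfl
    · rcases hx with ⟨i, hi⟩ | ⟨i, hi⟩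
      · exact (hcon i).1 hi.symm
      · exact (hcon i).2 hi.symm
    · rcases hx with ⟨i, hi⟩ | ⟨i, hi⟩
      · exact hw'a i hi.symm
      · exact hw'b i hi.symm
  rw [Finset.card_union_of_disjoint hd2, Finset.card_union_of_disjoint hd1,
    Finset.card_image_of_injective _ hainj, Finset.card_image_of_injective _ hbinj,
    Finset.card_pair hww', Finset.card_univ, Fintype.card_fin] at hc1
  have hNpos : 0 < N.card := Finset.card_pos.2 ⟨u, hu⟩
  omega

/-! ### consequences of the structure -/

section

variable {m : ℕ} {u : E} {a b : Fin m → E} {φ : E →ₗ[ℝ] (Fin m → ℝ)} {ψ : E →ₗ[ℝ] ℝ}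

theorem Str.φb (s : Str A u a b φ ψ) (i : Fin m) :
    ∃ β : ℝ, 0 < β ∧ φ (b i) = Pi.single i (-β) := by
  obtain ⟨α, β, hβ, hbi⟩ := s.ab i
  refine ⟨β, hβ, ?_⟩
  rw [hbi, map_sub, map_smul, map_smul, s.φu, s.φa]
  ext j
  by_cases hj : j = i
  · subst hj; simp
  · simp [Pi.single_apply, hj]

theorem Str.φa' (s : Str A u a b φ ψ) {i j : Fin m} (hj : j ≠ i) : φ (a i) j = 0 := by
  rw [s.φa, Pi.single_apply, if_neg hj]

theorem Str.φa'' (s : Str A u a b φ ψ) (i : Fin m) : φ (a i) i ≠ 0 := by
  rw [s.φa, Pi.single_eq_same]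
  norm_num

theorem Str.φb' (s : Str A u a b φ ψ) {i j : Fin m} (hj : j ≠ i) : φ (b i) j = 0 := by
  obtain ⟨β, hβ, h1⟩ := s.φb i
  rw [h1, Pi.single_apply, if_neg hj]

theorem Str.φb'' (s : Str A u a b φ ψ) (i : Fin m) : φ (b i) i ≠ 0 := by
  obtain ⟨β, hβ, h1⟩ := s.φb i
  rw [h1, Pi.single_eq_same]
  intro h
  linarith

theorem Str.ainj (s : Str A u a b φ ψ) : Function.Injective a := by
  intro i j hij
  by_contra hne
  apply s.φa'' i
  rw [hij]
  exact s.φa' hne

theorem Str.binj (s : Str A u a b φ ψ) : Function.Injective b := by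
  intro i j hij
  by_contra hne
  apply s.φb'' i
  rw [hij]
  exact s.φb' hne

theorem Str.a_ne_b (s : Str A u a b φ ψ) (i j : Fin m) : a i ≠ b j := by
  intro hij
  obtain ⟨β, hβ, h1⟩ := s.φb j
  rw [← hij, s.φa] at h1
  have := congrFun h1 j
  rw [Pi.single_eq_same, Pi.single_apply] at this
  split_ifs at this <;> linarith

theorem Str.mem_iff (s : Str A u a b φ ψ) (i : Fin m) (x : E) :
    x ∈ Submodule.span ℝ {u, a i} ↔ ∀ j, j ≠ i → φ x j = 0 := by
  rw [Submodule.mem_span_pair]
  constructor
  · rintro ⟨p, q, rfl⟩ j hj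
    rw [map_add, map_smul, map_smul, s.φu, Pi.add_apply, Pi.smul_apply, Pi.smul_apply,
      s.φa' hj]
    simp
  · intro hx
    refine ⟨ψ x, φ x i, s.inj _ _ ?_ ?_⟩
    · rw [map_add, map_smul, map_smul, s.φu, s.φa]
      ext j
      by_cases hj : j = i
      · subst hj; simp
      · simp [Pi.single_apply, hj, hx j hj]
    · rw [map_add, map_smul, map_smul, s.ψu, s.ψa]
      simp

theorem Str.a_mem (s : Str A u a b φ ψ) (i : Fin m) : a i ∈ Submodule.span ℝ {u, a i} :=
  Submodule.subset_span (by simp)

theorem Str.b_mem (s : Str A u a b φ ψ) (i : Fin m) : b i ∈ Submodule.span ℝ {u, a i} :=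
  (s.mem_iff i _).2 (fun _ hj => s.φb' hj)

/-- a vector of the plane that is a multiple of `u` -/
theorem Str.mult (s : Str A u a b φ ψ) {x : E} (hx : φ x = 0) : x = ψ x • u := by
  apply s.inj
  · rw [map_smul, s.φu, hx, smul_zero]
  · rw [map_smul, s.ψu]
    simp

theorem Str.alt1 (h : NData N A) (s : Str A u a b φ ψ) (k : Fin m) (Y : E)
    (hN : ∀ w ∈ N, w = u ∨ w = Y ∨ ∃ i, w = a i ∨ w = b i)
    (hY : Y ∈ Submodule.span ℝ {u, a k}) (hb : ∀ i, i ≠ k → b i = -a i) [DecidableEq E]
    [DecidablePred (· ∈ Submodule.span ℝ {u, a k})] :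
    Module.finrank ℝ (Submodule.span ℝ {u, a k}) = 2 ∧
      (∀ w ∈ N, w ∉ Submodule.span ℝ {u, a k} → -w ∈ N) ∧
      (N.filter (· ∈ Submodule.span ℝ {u, a k})).card ≤ 4 ∧
      (N.filter (fun w => ¬ w ∈ Submodule.span ℝ {u, a k})).card ≤ 2 * (m - 1) := by
  have haN : ∀ i, a i ∈ N := fun i => (h.irr u _ (s.Aa i)).2.1
  have hbN : ∀ i, b i ∈ N := fun i => (h.irr u _ (s.Ab i)).2.1
  have hout : ∀ w ∈ N, w ∉ Submodule.span ℝ {u, a k} → ∃ i, i ≠ k ∧ (w = a i ∨ w = b i) := by
    intro w hw hwP
    rcases hN w hw with rfl | rfl | ⟨i, hi⟩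
    · exact absurd (Submodule.subset_span (by simp)) hwP
    · exact absurd hY hwP
    · refine ⟨i, ?_, hi⟩
      rintro rfl
      rcases hi with rfl | rfl
      · exact hwP (s.a_mem i)
      · exact hwP (s.b_mem i)
  refine ⟨?_, ?_, ?_, ?_⟩
  · have hli : LinearIndependent ℝ ![u, a k] := by
      rw [LinearIndependent.pair_iff]
      intro p q hpq
      have h1 := congrArg ψ hpq
      rw [map_add, map_smul, map_smul, s.ψu, s.ψa, map_zero] at h1
      have h2 := congrFun (congrArg φ hpq) k
      rw [map_add, map_smul, map_smul, s.φu, map_zero, Pi.add_apply, Pi.smul_apply,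
        Pi.smul_apply, s.φa, Pi.single_eq_same] at h2
      simp at h1 h2
      exact ⟨h1, h2⟩
    have := finrank_span_eq_card hli
    rw [Matrix.range_cons, Matrix.range_cons, Matrix.range_empty, Set.union_empty,
      Set.singleton_union] at this
    rw [this]
    simp
  · intro w hw hwP
    obtain ⟨i, hik, hi⟩ := hout w hw hwP
    rcases hi with rfl | rfl
    · rw [← hb i hik]; exact hbN i
    · rw [hb i hik, neg_neg]; exact haN i
  · refine le_trans (Finset.card_le_card (t := {u, Y, a k, b k}) ?_) Finset.card_le_four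
    intro w hw
    rw [Finset.mem_filter] at hw
    simp only [Finset.mem_insert, Finset.mem_singleton]
    rcases hN w hw.1 with h1 | h1 | ⟨i, hi⟩
    · exact Or.inl h1
    · exact Or.inr (Or.inl h1)
    · by_cases hik : i = k
      · subst hik
        rcases hi with h1 | h1
        · exact Or.inr (Or.inr (Or.inl h1))
        · exact Or.inr (Or.inr (Or.inr h1))
      · exfalso
        have h2 := (s.mem_iff k w).1 hw.2 i hik
        rcases hi with rfl | rfl
        · exact s.φa'' i h2
        · exact s.φb'' i h2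
  · have hc : (N.filter (fun w => ¬ w ∈ Submodule.span ℝ {u, a k})).card ≤
        ((Finset.univ.erase k).image a ∪ (Finset.univ.erase k).image b).card := by
      apply Finset.card_le_card
      intro w hw
      rw [Finset.mem_filter] at hw
      obtain ⟨i, hik, hi⟩ := hout w hw.1 hw.2
      rw [Finset.mem_union, Finset.mem_image, Finset.mem_image]
      rcases hi with rfl | rfl
      · exact Or.inl ⟨i, by simp [hik], rfl⟩
      · exact Or.inr ⟨i, by simp [hik], rfl⟩
    refine hc.trans ((Finset.card_union_le _ _).trans ?_)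
    have h1 : (Finset.univ.erase k : Finset (Fin m)).card = m - 1 := by
      rw [Finset.card_erase_of_mem (Finset.mem_univ k), Finset.card_univ, Fintype.card_fin]
    have h2 := Finset.card_image_le (s := Finset.univ.erase k) (f := a)
    have h3 := Finset.card_image_le (s := Finset.univ.erase k) (f := b)
    omega

end

/-- a single facet is adjacent to all but one of the others -/
theorem nbr (h : NData N A) {m : ℕ} (hd : Module.finrank ℝ E = m + 1)
    (hN : N.card ≤ 2 * (m + 1)) {v : E} (hv : v ∈ N) (hs : -v ∉ N) {x y : E} (hx : x ∈ N)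
    (hy : y ∈ N) (hxv : x ≠ v) (hyv : y ≠ v) (hxy : x ≠ y) : A v x ∨ A v y := by
  classical
  by_contra hcon
  push Not at hcon
  obtain ⟨a, b, φ, ψ, s⟩ := exists_str h hd hN hv hs
  have hsub : Finset.univ.image a ∪ Finset.univ.image b ⊆ ((N.erase v).erase x).erase y := by
    intro z hz
    have hz' : A v z := by
      simp only [Finset.mem_union, Finset.mem_image, Finset.mem_univ, true_and] at hz
      rcases hz with ⟨i, rfl⟩ | ⟨i, rfl⟩
      · exact s.Aa i
      · exact s.Ab i
    simp only [Finset.mem_erase]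
    refine ⟨?_, ?_, (h.irr v z hz').2.2.1, (h.irr v z hz').2.1⟩
    · rintro rfl; exact hcon.2 hz'
    · rintro rfl; exact hcon.1 hz'
  have hd1 : Disjoint (Finset.univ.image a) (Finset.univ.image b) := by
    rw [Finset.disjoint_left]
    intro x hx hx'
    simp only [Finset.mem_image, Finset.mem_univ, true_and] at hx hx'
    obtain ⟨i, rfl⟩ := hx
    obtain ⟨j, hj⟩ := hx'
    exact s.a_ne_b i j hj.symm
  have hc := Finset.card_le_card hsub
  rw [Finset.card_erase_of_mem (by simp [hxy.symm, hyv, hy]),
    Finset.card_erase_of_mem (by simp [hxv, hx]), Finset.card_erase_of_mem hv,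
    Finset.card_union_of_disjoint hd1,
    Finset.card_image_of_injective _ s.ainj, Finset.card_image_of_injective _ s.binj,
    Finset.card_univ, Fintype.card_fin] at hc
  have hNpos : 2 < N.card := by
    have : ({v, x, y} : Finset E) ⊆ N := by
      intro z hz
      simp only [Finset.mem_insert, Finset.mem_singleton] at hz
      rcases hz with rfl | rfl | rfl <;> assumption
    have h3 := Finset.card_le_card this
    rw [Finset.card_eq_three.2 ⟨v, x, y, hxv.symm, hyv.symm, hxy, rfl⟩] at h3
    omega
  omega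

/-- the main argument -/
theorem core (h : NData N A) {m : ℕ} (hd : Module.finrank ℝ E = m + 1)
    (hN : N.card ≤ 2 * (m + 1)) {u : E} (hu : u ∈ N) (hus : -u ∉ N)
    {a b : Fin m → E} {φ : E →ₗ[ℝ] (Fin m → ℝ)} {ψ : E →ₗ[ℝ] ℝ} (s : Str A u a b φ ψ)
    (hm : 0 < m) :
    (∃ (k : Fin m) (Y : E), (∀ w ∈ N, w = u ∨ w = Y ∨ ∃ i, w = a i ∨ w = b i) ∧
      Y ∈ Submodule.span ℝ {u, a k} ∧ ∀ i, i ≠ k → b i = -a i) ∨
    (∃ X ∈ N, u ≠ X ∧ ¬ A u X ∧ ∀ w ∈ N, w ≠ u → w ≠ X → -w ∈ N) := by
  have haN : ∀ i, a i ∈ N := fun i => (h.irr u _ (s.Aa i)).2.1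
  have hbN : ∀ i, b i ∈ N := fun i => (h.irr u _ (s.Ab i)).2.1
  have hau : ∀ i, a i ≠ u := fun i => (h.irr u _ (s.Aa i)).2.2.1
  have hbu : ∀ i, b i ≠ u := fun i => (h.irr u _ (s.Ab i)).2.2.1
  have hu0 : u ∈ N ∧ u ≠ 0 := ⟨hu, h.ne_zero hu⟩
  have hself : ∀ x ∈ N, -x ≠ x := by
    intro x hx hxx
    apply h.ne_zero hx
    have : (2 : ℝ) • x = 0 := by
      rw [two_smul]; nth_rw 1 [← hxx]; simp
    rcases smul_eq_zero.1 this with h1 | h1
    · norm_num at h1
    · exact h1
  -- multiples of `u`
  have hmul : ∀ x ∈ N, φ x = 0 → x = u := by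
    intro x hx h0
    rcases unit_smul (h.unit x hx) (h.unit u hu) (s.mult h0) with h1 | h1
    · exact h1
    · exact absurd (h1 ▸ hx) hus
  by_cases hX : ∃ X ∈ N, X ≠ u ∧ ¬ A u X
  swap
  · -- no further facet
    push Not at hX
    have hcl : ∀ w ∈ N, w = u ∨ ∃ i, w = a i ∨ w = b i := by
      intro w hw
      by_cases hwu : w = u
      · exact Or.inl hwu
      · exact Or.inr (s.all w (hX w hw hwu))
    left
    by_cases hk : ∃ k, b k ≠ -a k
    · obtain ⟨k, hk⟩ := hk
      refine ⟨k, u, fun w hw => ?_, Submodule.subset_span (by simp), ?_⟩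
      · rcases hcl w hw with h1 | h1
        · exact Or.inl h1
        · exact Or.inr (Or.inr h1)
      · intro i hik
        have hnk : a i ∉ Submodule.span ℝ {u, a k} := fun hh =>
          s.φa'' i ((s.mem_iff k _).1 hh i hik)
        obtain ⟨z, hz, hz', hzz⟩ := h.two u hu hus (a k) (a i) (s.Aa k) (s.Aa i) hnk
        have hpl : ∀ j, ∀ z ∈ N, -z ∈ N → z ∈ Submodule.span ℝ {u, a j} → b j = -a j := by
          intro j z hz hz' hzj
          have hin : ∀ w ∈ N, w ∈ Submodule.span ℝ {u, a j} → w = u ∨ w = a j ∨ w = b j := by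
            intro w hw hwj
            rcases hcl w hw with h1 | ⟨i, h1⟩
            · exact Or.inl h1
            · by_cases hij : i = j
              · subst hij; exact Or.inr h1
              · exfalso
                have h2 := (s.mem_iff j w).1 hwj i hij
                rcases h1 with rfl | rfl
                · exact s.φa'' i h2
                · exact s.φb'' i h2
          have hzj' : -z ∈ Submodule.span ℝ {u, a j} := Submodule.neg_mem _ hzj
          rcases hin z hz hzj with h1 | h1 | h1
          · rw [h1] at hz'; exact absurd hz' hus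
          · rcases hin _ hz' hzj' with h2 | h2 | h2
            · exfalso; apply hus; rw [← h2, neg_neg]; exact hz
            · exfalso; rw [h1] at h2; exact hself _ (haN j) h2
            · rw [← h2, h1]
          · rcases hin _ hz' hzj' with h2 | h2 | h2
            · exfalso; apply hus; rw [← h2, neg_neg]; exact hz
            · rw [← h2, neg_neg, h1]
            · exfalso; rw [h1] at h2; exact hself _ (hbN j) h2
        rcases hzz with h1 | h1
        · exact absurd (hpl k z hz hz' h1) hk
        · exact hpl i z hz hz' h1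
    · push Not at hk
      refine ⟨⟨0, hm⟩, u, fun w hw => ?_, Submodule.subset_span (by simp), fun i _ => hk i⟩
      rcases hcl w hw with h1 | h1
      · exact Or.inl h1
      · exact Or.inr (Or.inr h1)
  -- one further facet
  obtain ⟨X, hXN, hXu, hXA⟩ := hX
  have hcl : ∀ w ∈ N, w = u ∨ w = X ∨ ∃ i, w = a i ∨ w = b i := by
    intro w hw
    by_cases hwu : w = u
    · exact Or.inl hwu
    by_cases hwX : w = X
    · exact Or.inr (Or.inl hwX)
    · right; right
      rcases nbr h hd hN hu hus hw hXN hwu hXu hwX with h1 | h1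
      · exact s.all w h1
      · exact absurd h1 hXA
  have hXa : ∀ i, X ≠ a i := by rintro i rfl; exact hXA (s.Aa i)
  have hXb : ∀ i, X ≠ b i := by rintro i rfl; exact hXA (s.Ab i)
  -- planes not containing `X`
  have hin : ∀ j, X ∉ Submodule.span ℝ {u, a j} → ∀ w ∈ N, w ∈ Submodule.span ℝ {u, a j} →
      w = u ∨ w = a j ∨ w = b j := by
    intro j hXj w hw hwj
    rcases hcl w hw with h1 | rfl | ⟨i, h1⟩
    · exact Or.inl h1
    · exact absurd hwj hXj
    · by_cases hij : i = j
      · subst hij; exact Or.inr h1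
      · exfalso
        have h2 := (s.mem_iff j w).1 hwj i hij
        rcases h1 with rfl | rfl
        · exact s.φa'' i h2
        · exact s.φb'' i h2
  have hpl : ∀ j, X ∉ Submodule.span ℝ {u, a j} → ∀ z ∈ N, -z ∈ N →
      z ∈ Submodule.span ℝ {u, a j} → b j = -a j := by
    intro j hXj z hz hz' hzj
    have hzj' : -z ∈ Submodule.span ℝ {u, a j} := Submodule.neg_mem _ hzj
    rcases hin j hXj z hz hzj with h1 | h1 | h1
    · rw [h1] at hz'; exact absurd hz' hus
    · rcases hin j hXj _ hz' hzj' with h2 | h2 | h2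
      · exfalso; apply hus; rw [← h2, neg_neg]; exact hz
      · exfalso; rw [h1] at h2; exact hself _ (haN j) h2
      · rw [← h2, h1]
    · rcases hin j hXj _ hz' hzj' with h2 | h2 | h2
      · exfalso; apply hus; rw [← h2, neg_neg]; exact hz
      · rw [← h2, neg_neg, h1]
      · exfalso; rw [h1] at h2; exact hself _ (hbN j) h2
  by_cases hall : ∀ i, b i = -a i
  · -- no bad plane
    by_cases hXj : ∃ j, X ∈ Submodule.span ℝ {u, a j}
    · obtain ⟨j, hj⟩ := hXj
      exact Or.inl ⟨j, X, hcl, hj, fun i _ => hall i⟩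
    · refine Or.inr ⟨X, hXN, hXu.symm, hXA, ?_⟩
      intro w hw hwu hwX
      rcases hcl w hw with h1 | h1 | ⟨i, h1⟩
      · exact absurd h1 hwu
      · exact absurd h1 hwX
      · rcases h1 with rfl | rfl
        · rw [← hall i]; exact hbN i
        · rw [hall i, neg_neg]; exact haN i
  by_cases hXj : ∃ j, X ∈ Submodule.span ℝ {u, a j}
  · -- Case II
    obtain ⟨j, hj⟩ := hXj
    by_cases hk : ∀ i, i ≠ j → b i = -a i
    · exact Or.inl ⟨j, X, hcl, hj, hk⟩
    exfalso
    push Not at hk
    obtain ⟨k, hkj, hk⟩ := hk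
    have hXk : X ∉ Submodule.span ℝ {u, a k} := by
      intro hh
      apply hXu
      apply hmul X hXN
      ext i
      by_cases hik : i = k
      · subst hik; exact (s.mem_iff j X).1 hj i hkj
      · exact (s.mem_iff k X).1 hh i hik
    have hnk : ∀ z ∈ N, -z ∈ N → z ∉ Submodule.span ℝ {u, a k} := fun z hz hz' hzk =>
      hk (hpl k hXk z hz hz' hzk)
    have hakS : -a k ∉ N := fun hh => hnk _ (haN k) hh (s.a_mem k)
    have hbkS : -b k ∉ N := fun hh => hnk _ (hbN k) hh (s.b_mem k)
    -- claim K
    have hK : ∀ y ∈ N, -y ∉ N → y ≠ u → y ∈ Submodule.span ℝ {u, a j} →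
        ∀ v ∈ N, A u v → v ∈ Submodule.span ℝ {u, a k} → -v ∉ N → φ v k ≠ 0 → ¬ A y v := by
      intro y hy hys hyu hyj v hv hAv hvk hvs hφv hAyv
      have hyk : y ∉ Submodule.span ℝ {u, a k} := by
        intro hh
        apply hyu
        apply hmul y hy
        ext i
        by_cases hik : i = k
        · subst hik; exact (s.mem_iff j y).1 hyj i hkj
        · exact (s.mem_iff k y).1 hh i hik
      have hsub : Submodule.span ℝ {v, u} ≤ Submodule.span ℝ {u, a k} := by
        rw [Submodule.span_le]
        rintro x (rfl | rfl)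
        · exact hvk
        · exact Submodule.subset_span (by simp)
      obtain ⟨z, hz, hz', hzz⟩ := h.two v hv hvs u y (h.symm _ _ hAv) (h.symm _ _ hAyv)
        (fun hh => hyk (hsub hh))
      rcases hzz with h1 | h1
      · exact hnk z hz hz' (hsub h1)
      · rw [Submodule.mem_span_pair] at h1
        obtain ⟨p, q, h1⟩ := h1
        have hφz : ∀ i, φ z i = p * φ v i + q * φ y i := by
          intro i
          rw [← h1, map_add, map_smul, map_smul]
          simp
        have hzj : z ∈ Submodule.span ℝ {u, a j} := by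
          rcases hcl z hz with h2 | h2 | ⟨i, h2⟩
          · rw [h2]; exact Submodule.subset_span (by simp)
          · rw [h2]; exact hj
          · by_cases hij : i = j
            · subst hij
              rcases h2 with rfl | rfl
              · exact s.a_mem i
              · exact s.b_mem i
            · by_cases hik : i = k
              · subst hik
                rcases h2 with rfl | rfl
                · exact absurd hz' hakS
                · exact absurd hz' hbkS
              · exfalso
                have h3 := hφz i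
                rw [(s.mem_iff k v).1 hvk i hik, (s.mem_iff j y).1 hyj i hij] at h3
                simp only [mul_zero, add_zero] at h3
                rcases h2 with rfl | rfl
                · exact s.φa'' i h3
                · exact s.φb'' i h3
        have h3 := hφz k
        rw [(s.mem_iff j z).1 hzj k hkj, (s.mem_iff j y).1 hyj k hkj, mul_zero, add_zero] at h3
        have hp : p = 0 := by
          rcases mul_eq_zero.1 h3.symm with h4 | h4
          · exact h4
          · exact absurd h4 hφv
        rw [hp, zero_smul, zero_add] at h1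
        rcases unit_smul (h.unit z hz) (h.unit y hy) h1.symm with h4 | h4
        · rw [h4] at hz'; exact hys hz'
        · rw [h4] at hz; exact hys hz
    -- a single facet in the plane `j`
    have hinj : ∀ w ∈ N, w ∈ Submodule.span ℝ {u, a j} → w = u ∨ w = X ∨ w = a j ∨ w = b j := by
      intro w hw hwj
      rcases hcl w hw with h1 | rfl | ⟨i, h1⟩
      · exact Or.inl h1
      · exact Or.inr (Or.inl rfl)
      · by_cases hij : i = j
        · subst hij; exact Or.inr (Or.inr h1)
        · exfalso
          have h2 := (s.mem_iff j w).1 hwj i hij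
          rcases h1 with rfl | rfl
          · exact s.φa'' i h2
          · exact s.φb'' i h2
    have hy : ∃ y ∈ N, -y ∉ N ∧ y ≠ u ∧ y ∈ Submodule.span ℝ {u, a j} := by
      by_contra hcon
      push Not at hcon
      have h1 : -a j ∈ N := by
        by_contra h2
        exact hcon _ (haN j) h2 (hau j) (s.a_mem j)
      have h2 : -b j ∈ N := by
        by_contra h3
        exact hcon _ (hbN j) h3 (hbu j) (s.b_mem j)
      have h3 : -X ∈ N := by
        by_contra h4
        exact hcon _ hXN h4 hXu hj
      have hne : ∀ x ∈ N, -x ≠ u := by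
        intro x hx hxu
        apply hus
        rw [← hxu, neg_neg]
        exact hx
      rcases hinj _ h1 (Submodule.neg_mem _ (s.a_mem j)) with h4 | h4 | h4 | h4
      · exact hne _ (haN j) h4
      · rcases hinj _ h2 (Submodule.neg_mem _ (s.b_mem j)) with h5 | h5 | h5 | h5
        · exact hne _ (hbN j) h5
        · exact s.a_ne_b j j (neg_injective (h4.trans h5.symm))
        · apply hXb j
          rw [← h4, ← h5, neg_neg]
        · exact hself _ (hbN j) h5
      · exact hself _ (haN j) h4
      · rcases hinj _ h3 (Submodule.neg_mem _ hj) with h5 | h5 | h5 | h5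
        · exact hne _ hXN h5
        · exact hself _ hXN h5
        · apply hXb j
          rw [← h4, ← h5, neg_neg]
        · apply hXa j
          rw [← neg_inj, h5, h4]
    obtain ⟨y, hyN, hys, hyu, hyj⟩ := hy
    have hyk : ∀ v ∈ N, φ v k ≠ 0 → v ≠ y := by
      rintro v - hv rfl
      exact hv ((s.mem_iff j v).1 hyj k hkj)
    rcases nbr h hd hN hyN hys (haN k) (hbN k) (hyk _ (haN k) (s.φa'' k))
      (hyk _ (hbN k) (s.φb'' k)) (s.a_ne_b k k) with h1 | h1
    · exact hK y hyN hys hyu hyj (a k) (haN k) (s.Aa k) (s.a_mem k) hakS (s.φa'' k) h1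
    · exact hK y hyN hys hyu hyj (b k) (hbN k) (s.Ab k) (s.b_mem k) hbkS (s.φb'' k) h1
  · -- Case I with a bad plane
    exfalso
    push Not at hall hXj
    obtain ⟨k, hk⟩ := hall
    have hnk : ∀ z ∈ N, -z ∈ N → z ∉ Submodule.span ℝ {u, a k} := fun z hz hz' hzk =>
      hk (hpl k (hXj k) z hz hz' hzk)
    have hakS : -a k ∉ N := fun hh => hnk _ (haN k) hh (s.a_mem k)
    have hbkS : -b k ∉ N := fun hh => hnk _ (hbN k) hh (s.b_mem k)
    have hi : ∀ i, i ≠ k → b i = -a i := by
      intro i hik
      have hnk' : a i ∉ Submodule.span ℝ {u, a k} := fun hh =>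
        s.φa'' i ((s.mem_iff k _).1 hh i hik)
      obtain ⟨z, hz, hz', hzz⟩ := h.two u hu hus (a k) (a i) (s.Aa k) (s.Aa i) hnk'
      rcases hzz with h1 | h1
      · exact absurd h1 (hnk z hz hz')
      · exact hpl i (hXj i) z hz hz' h1
    have hXS : -X ∉ N := by
      intro hh
      rcases hcl _ hh with h1 | h1 | ⟨i, h1⟩
      · apply hus; rw [← h1, neg_neg]; exact hXN
      · exact hself _ hXN h1
      · apply hXj i
        rw [← Submodule.neg_mem_iff]
        rcases h1 with h1 | h1
        · rw [h1]; exact s.a_mem i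
        · rw [h1]; exact s.b_mem i
    have hXAu : ¬ A X u := fun hh => hXA (h.symm _ _ hh)
    have hXk : ∀ v ∈ N, v ≠ u → v ≠ X → A v X := by
      intro v hv hvu hvX
      rcases nbr h hd hN hXN hXS hu hv hXu.symm hvX hvu.symm with h1 | h1
      · exact absurd h1 hXAu
      · exact h.symm _ _ h1
    -- `two` at `v`
    have hv : ∀ v ∈ N, A u v → v ∈ Submodule.span ℝ {u, a k} → -v ∉ N → φ v k ≠ 0 → v ≠ X →
        ∃ (p q : ℝ) (i : Fin m), i ≠ k ∧ (a i = p • v + q • X) := by
      intro v hvN hAv hvk hvs hφv hvX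
      have hsub : Submodule.span ℝ {v, u} ≤ Submodule.span ℝ {u, a k} := by
        rw [Submodule.span_le]
        rintro x (rfl | rfl)
        · exact hvk
        · exact Submodule.subset_span (by simp)
      obtain ⟨z, hz, hz', hzz⟩ := h.two v hvN hvs u X (h.symm _ _ hAv)
        (hXk v hvN (h.irr u v hAv).2.2.1 hvX) (fun hh => hXj k (hsub hh))
      rcases hzz with h1 | h1
      · exact absurd (hsub h1) (hnk z hz hz')
      · rw [Submodule.mem_span_pair] at h1
        obtain ⟨p, q, h1⟩ := h1
        rcases hcl z hz with h2 | h2 | ⟨i, h2⟩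
        · rw [h2] at hz'; exact absurd hz' hus
        · rw [h2] at hz'; exact absurd hz' hXS
        · have hik : i ≠ k := by
            rintro rfl
            rcases h2 with rfl | rfl
            · exact hakS hz'
            · exact hbkS hz'
          rcases h2 with h2 | h2
          · exact ⟨p, q, i, hik, by rw [h1, h2]⟩
          · refine ⟨-p, -q, i, hik, ?_⟩
            rw [neg_smul, neg_smul, ← neg_add, h1, h2, hi i hik, neg_neg]
    obtain ⟨p, q, i, hik, h1⟩ := hv (a k) (haN k) (s.Aa k) (s.a_mem k) hakS (s.φa'' k)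
      (hXa k).symm
    obtain ⟨p', q', i', hik', h2⟩ := hv (b k) (hbN k) (s.Ab k) (s.b_mem k) hbkS (s.φb'' k)
      (hXb k).symm
    have hψX : ψ X = 0 := by
      have h3 := congrArg ψ h1
      rw [map_add, map_smul, map_smul, s.ψa, s.ψa, smul_zero, zero_add, smul_eq_mul] at h3
      rcases mul_eq_zero.1 h3.symm with h4 | h4
      · exfalso
        rw [h4, zero_smul, add_zero] at h1
        have h5 := congrFun (congrArg φ h1) i
        rw [map_smul, Pi.smul_apply, s.φa' hik, smul_zero] at h5
        exact s.φa'' i h5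
      · exact h4
    have h3 := congrArg ψ h2
    rw [map_add, map_smul, map_smul, s.ψa, hψX, smul_zero, add_zero, smul_eq_mul] at h3
    rcases mul_eq_zero.1 h3.symm with h4 | h4
    · rw [h4, zero_smul, zero_add] at h2
      apply hXj i'
      have hq : q' ≠ 0 := by
        rintro rfl
        rw [zero_smul] at h2
        exact h.ne_zero (haN i') h2
      have : X = q'⁻¹ • a i' := by
        rw [h2, smul_smul, inv_mul_cancel₀ hq, one_smul]
      rw [this]
      exact Submodule.smul_mem _ _ (s.a_mem i')
    · have h5 : b k = (φ (b k) k) • a k := by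
        apply s.inj
        · rw [map_smul, s.φa]
          ext j
          by_cases hj : j = k
          · subst hj; simp
          · simp [hj, s.φb' hj]
        · rw [map_smul, s.ψa, h4, smul_zero]
      rcases unit_smul (h.unit _ (hbN k)) (h.unit _ (haN k)) h5 with h6 | h6
      · exact s.a_ne_b k k h6.symm
      · exact hk h6

open Classical in
theorem lin {N : Finset E} {A : E → E → Prop} (h : NData N A) {d : ℕ}
    (hd : Module.finrank ℝ E = d) (hd2 : 2 ≤ d) (hN : N.card ≤ 2 * d) :
    (∃ Pl : Submodule ℝ E, Module.finrank ℝ Pl = 2 ∧ (∀ u ∈ N, u ∉ Pl → -u ∈ N) ∧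
      (N.filter (· ∈ Pl)).card ≤ 4 ∧ (N.filter (· ∉ Pl)).card ≤ 2 * (d - 2)) ∨
    (∃ u ∈ N, ∃ X ∈ N, u ≠ X ∧ ¬ A u X ∧ ∀ w ∈ N, w ≠ u → w ≠ X → -w ∈ N) := by
  obtain ⟨m, rfl⟩ : ∃ m, d = m + 1 := ⟨d - 1, by omega⟩
  have hm : 0 < m := by omega
  by_cases hs : ∃ u ∈ N, -u ∉ N
  · obtain ⟨u, hu, hus⟩ := hs
    obtain ⟨a, b, φ, ψ, s⟩ := exists_str h hd hN hu hus
    rcases core h hd hN hu hus s hm with ⟨k, Y, h1, h2, h3⟩ | ⟨X, h1, h2, h3, h4⟩
    · left
      obtain ⟨h5, h6, h7, h8⟩ := s.alt1 h k Y h1 h2 h3
      refine ⟨_, h5, h6, ?_, ?_⟩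
      · convert h7
      · have e : m + 1 - 2 = m - 1 := by omega
        rw [e]
        convert h8
    · exact Or.inr ⟨u, hu, X, h1, h2, h3, h4⟩
  · push Not at hs
    right
    have hne : ∃ u, u ∈ N := by
      by_contra hcon
      push Not at hcon
      haveI : Nontrivial E := by
        apply Module.nontrivial_of_finrank_pos (R := ℝ)
        omega
      obtain ⟨x, hx⟩ := exists_ne (0 : E)
      exact hx (h.bdd x (fun u hu => absurd hu (hcon u)))
    obtain ⟨u, hu⟩ := hne
    refine ⟨u, hu, -u, hs u hu, ?_, ?_, fun w hw _ _ => hs w hw⟩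
    · intro hh
      apply h.ne_zero hu
      have : (2 : ℝ) • u = 0 := by
        rw [two_smul]; nth_rw 1 [hh]; simp
      rcases smul_eq_zero.1 this with h1 | h1
      · norm_num at h1
      · exact h1
    · intro hA
      exact (h.irr u _ hA).2.2.2 rfl

end Pool.PT24
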