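import Pool.Agent.PT24.FBase
import Pool.Agent.PT56.ToNF

set_option autoImplicit false
set_option linter.unusedSectionVars false

/-!
# PT24/PlB: triangles and quadrilaterals are counterclockwise polygons, and tile

Discard points: `Q` is the hull of 3 or 4 points, none in the hull of the others (minimal number of points).
3 points: order them counterclockwise.  4 points: the coefficients of the affine relation of the four points
(`plB_rel4`) have two positive and two negative signs (otherwise one point is in the hull of the other three, or all the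
points are on a line), and each of the 6 sign patterns gives a counterclockwise order (`IsPoly` for `ZMod 4`).
Then `tiles_of_good` (PT56/ToNF), `Good` since `n ≤ 4`.
-/

namespace Pool.PT24

open Set Filter Topology
open Pool.PT56

/-- orientation -/
def plB_D3 (x y z : ℝ × ℝ) : ℝ := det (y - x) (z - x)

theorem plB_D3_cyc (a b c : ℝ × ℝ) : plB_D3 b c a = plB_D3 a b c := by
  simp only [plB_D3, det, Prod.fst_sub, Prod.snd_sub]; ring

theorem plB_D3_swap (a b c : ℝ × ℝ) : plB_D3 a c b = - plB_D3 a b c := by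
  simp only [plB_D3, det, Prod.fst_sub, Prod.snd_sub]; ring

theorem plB_tri_isPoly {a b c : ℝ × ℝ} (h : 0 < plB_D3 a b c) :
    ∃ v : ZMod 3 → ℝ × ℝ, IsPoly v ∧ Set.range v = {a, b, c} := by
  let v : ZMod 3 → ℝ × ℝ := ![a, b, c]
  have h2 : 0 < det (c - b) (a - b) := by have := plB_D3_cyc a b c; rw [← this] at h; exact h
  have h3 : 0 < det (a - c) (b - c) := by
    have := plB_D3_cyc b c a; rw [plB_D3_cyc a b c] at this; rw [← this] at h; exact h
  have h1 : 0 < det (b - a) (c - a) := h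
  refine ⟨v, ⟨le_rfl, ?_⟩, ?_⟩
  · intro i j c1 c2
    fin_cases i <;> fin_cases j <;>
      first
      | exact absurd rfl c1
      | exact absurd rfl c2
      | exact h1
      | exact h2
      | exact h3
  · ext x
    constructor
    · rintro ⟨i, rfl⟩
      fin_cases i <;> simp [v]
    · rintro (rfl | rfl | rfl)
      exacts [⟨0, rfl⟩, ⟨1, rfl⟩, ⟨2, rfl⟩]

theorem plB_quad_isPoly {a b c d : ℝ × ℝ} (h1 : 0 < plB_D3 a b c) (h2 : 0 < plB_D3 a b d) (h3 : 0 < plB_D3 a c d)
    (h4 : 0 < plB_D3 b c d) :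
    ∃ v : ZMod 4 → ℝ × ℝ, IsPoly v ∧ Set.range v = {a, b, c, d} := by
  let v : ZMod 4 → ℝ × ℝ := ![a, b, c, d]
  have e1 : 0 < det (b - a) (c - a) := h1
  have e2 : 0 < det (b - a) (d - a) := h2
  have e3 : 0 < det (c - b) (d - b) := h4
  have e4 : 0 < det (c - b) (a - b) := by rw [← plB_D3_cyc] at h1; exact h1
  have e5 : 0 < det (d - c) (a - c) := by rw [← plB_D3_cyc] at h3; exact h3
  have e6 : 0 < det (d - c) (b - c) := by rw [← plB_D3_cyc] at h4; exact h4
  have e7 : 0 < det (a - d) (b - d) := by rw [← plB_D3_cyc, ← plB_D3_cyc] at h2; exact h2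
  have e8 : 0 < det (a - d) (c - d) := by rw [← plB_D3_cyc, ← plB_D3_cyc] at h3; exact h3
  refine ⟨v, ⟨by norm_num, ?_⟩, ?_⟩
  · intro i j c1 c2
    fin_cases i <;> fin_cases j <;>
      first
      | exact absurd rfl c1
      | exact absurd rfl c2
      | exact e1
      | exact e2
      | exact e3
      | exact e4
      | exact e5
      | exact e6
      | exact e7
      | exact e8
  · ext x
    constructor
    · rintro ⟨i, rfl⟩
      fin_cases i <;> simp [v]
    · rintro (rfl | rfl | rfl | rfl)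
      exacts [⟨0, rfl⟩, ⟨1, rfl⟩, ⟨2, rfl⟩, ⟨3, rfl⟩]

/-- affine relation of four points -/
theorem plB_rel4 (a b c d : ℝ × ℝ) :
    plB_D3 b c d • a - plB_D3 a c d • b + plB_D3 a b d • c - plB_D3 a b c • d = 0 := by
  apply Prod.ext <;>
  · simp only [plB_D3, det, Prod.fst_sub, Prod.snd_sub, Prod.fst_add, Prod.snd_add, Prod.smul_fst,
      Prod.smul_snd, smul_eq_mul, Prod.fst_zero, Prod.snd_zero]
    ring

theorem plB_sum4 (a b c d : ℝ × ℝ) : plB_D3 b c d - plB_D3 a c d + plB_D3 a b d - plB_D3 a b c = 0 := by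
  simp only [plB_D3, det, Prod.fst_sub, Prod.snd_sub]; ring

/-- a point is in the hull of three others if its coefficient has a sign different from the others -/
theorem plB_hull_of_signs {a b c d : ℝ × ℝ} {α β γ δ : ℝ} (hs : α + β + γ + δ = 0)
    (hr : α • a + β • b + γ • c + δ • d = 0) (ha : α < 0) (hb : 0 ≤ β) (hc : 0 ≤ γ) (hd : 0 ≤ δ) :
    a ∈ convexHull ℝ ({b, c, d} : Set (ℝ × ℝ)) := by
  have h1 : a = (β / -α) • b + (γ / -α) • c + (δ / -α) • d := by
    have hα : α ≠ 0 := ha.ne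
    have h2 : a = (-α)⁻¹ • (β • b + γ • c + δ • d) := by
      have : β • b + γ • c + δ • d = (-α) • a := by
        rw [neg_smul, eq_neg_iff_add_eq_zero, ← hr]; abel
      rw [this, smul_smul, inv_mul_cancel₀ (neg_ne_zero.2 hα), one_smul]
    rw [h2]
    simp only [smul_add, smul_smul, div_eq_inv_mul]
  rw [h1]
  have hα : 0 < -α := by linarith
  have hconv := convex_convexHull ℝ ({b, c, d} : Set (ℝ × ℝ))
  have mb : b ∈ convexHull ℝ ({b, c, d} : Set (ℝ × ℝ)) := subset_convexHull ℝ _ (by simp)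
  have mc : c ∈ convexHull ℝ ({b, c, d} : Set (ℝ × ℝ)) := subset_convexHull ℝ _ (by simp)
  have md : d ∈ convexHull ℝ ({b, c, d} : Set (ℝ × ℝ)) := subset_convexHull ℝ _ (by simp)
  have hsum : β / -α + γ / -α + δ / -α = 1 := by
    rw [← add_div, ← add_div, div_eq_one_iff_eq hα.ne']; linarith
  have := hconv.sum_mem (t := (Finset.univ : Finset (Fin 3)))
    (w := ![β / -α, γ / -α, δ / -α]) (z := ![b, c, d]) (by
      intro i _
      fin_cases i <;> simp <;> positivity) (by simp [Fin.sum_univ_three]; exact hsum) (by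
      intro i _
      fin_cases i <;> simp [mb, mc, md])
  simpa [Fin.sum_univ_three] using this

theorem plB_no_signs {a b c d : ℝ × ℝ} {α β γ δ : ℝ} (hs : α + β + γ + δ = 0)
    (hr : α • a + β • b + γ • c + δ • d = 0) (h : a ∉ convexHull ℝ ({b, c, d} : Set (ℝ × ℝ))) :
    (α < 0 → 0 ≤ β → 0 ≤ γ → 0 ≤ δ → False) ∧ (0 < α → β ≤ 0 → γ ≤ 0 → δ ≤ 0 → False) := by
  constructor
  · intro h1 h2 h3 h4
    exact h (plB_hull_of_signs hs hr h1 h2 h3 h4)
  · intro h1 h2 h3 h4
    apply h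
    apply plB_hull_of_signs (α := -α) (β := -β) (γ := -γ) (δ := -δ) (by linarith) _ (by linarith)
      (by linarith) (by linarith) (by linarith)
    simp only [neg_smul]
    rw [← neg_eq_zero, ← hr]; abel

theorem plB_perm1 (a b c d : ℝ × ℝ) : ({a, d, c, b} : Set (ℝ × ℝ)) = {a, b, c, d} := by
  ext x; simp only [mem_insert_iff, mem_singleton_iff]; tauto

theorem plB_perm2 (a b c d : ℝ × ℝ) : ({a, d, b, c} : Set (ℝ × ℝ)) = {a, b, c, d} := by
  ext x; simp only [mem_insert_iff, mem_singleton_iff]; tauto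

theorem plB_perm3 (a b c d : ℝ × ℝ) : ({a, c, b, d} : Set (ℝ × ℝ)) = {a, b, c, d} := by
  ext x; simp only [mem_insert_iff, mem_singleton_iff]; tauto

theorem plB_perm4 (a b c d : ℝ × ℝ) : ({a, c, d, b} : Set (ℝ × ℝ)) = {a, b, c, d} := by
  ext x; simp only [mem_insert_iff, mem_singleton_iff]; tauto

theorem plB_perm5 (a b c d : ℝ × ℝ) : ({a, b, d, c} : Set (ℝ × ℝ)) = {a, b, c, d} := by
  ext x; simp only [mem_insert_iff, mem_singleton_iff]; tauto

theorem plB_signs4 {α β γ δ : ℝ} (hs : α + β + γ + δ = 0)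
    (A1 : α < 0 → 0 ≤ β → 0 ≤ γ → 0 ≤ δ → False) (A2 : 0 < α → β ≤ 0 → γ ≤ 0 → δ ≤ 0 → False)
    (B1 : β < 0 → 0 ≤ α → 0 ≤ γ → 0 ≤ δ → False) (B2 : 0 < β → α ≤ 0 → γ ≤ 0 → δ ≤ 0 → False)
    (C1 : γ < 0 → 0 ≤ α → 0 ≤ β → 0 ≤ δ → False) (C2 : 0 < γ → α ≤ 0 → β ≤ 0 → δ ≤ 0 → False)
    (E1 : δ < 0 → 0 ≤ α → 0 ≤ β → 0 ≤ γ → False) (E2 : 0 < δ → α ≤ 0 → β ≤ 0 → γ ≤ 0 → False)
    (hnz : γ = 0 → δ = 0 → False) :
    (0 < α ∧ β < 0 ∧ 0 < γ ∧ δ < 0) ∨ (α < 0 ∧ 0 < β ∧ γ < 0 ∧ 0 < δ) ∨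
      (0 < α ∧ 0 < β ∧ γ < 0 ∧ δ < 0) ∨ (α < 0 ∧ β < 0 ∧ 0 < γ ∧ 0 < δ) ∨
      (0 < α ∧ β < 0 ∧ γ < 0 ∧ 0 < δ) ∨ (α < 0 ∧ 0 < β ∧ 0 < γ ∧ δ < 0) := by
  have tri : ∀ x : ℝ, (x < 0 ∧ x ≤ 0) ∨ (x = 0 ∧ x ≤ 0 ∧ 0 ≤ x) ∨ (0 < x ∧ 0 ≤ x) := by
    intro x
    rcases lt_trichotomy x 0 with h | h | h
    · exact Or.inl ⟨h, h.le⟩
    · exact Or.inr (Or.inl ⟨h, h.le, h.ge⟩)
    · exact Or.inr (Or.inr ⟨h, h.le⟩)
  rcases tri α with ⟨a1, a2⟩ | ⟨a1, a2, a3⟩ | ⟨a1, a2⟩ <;>
  rcases tri β with ⟨b1, b2⟩ | ⟨b1, b2, b3⟩ | ⟨b1, b2⟩ <;>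
  rcases tri γ with ⟨c1, c2⟩ | ⟨c1, c2, c3⟩ | ⟨c1, c2⟩ <;>
  rcases tri δ with ⟨d1, d2⟩ | ⟨d1, d2, d3⟩ | ⟨d1, d2⟩ <;>
  first
  | exact (A1 (by assumption) (by assumption) (by assumption) (by assumption)).elim
  | exact (A2 (by assumption) (by assumption) (by assumption) (by assumption)).elim
  | exact (B1 (by assumption) (by assumption) (by assumption) (by assumption)).elim
  | exact (B2 (by assumption) (by assumption) (by assumption) (by assumption)).elim
  | exact (C1 (by assumption) (by assumption) (by assumption) (by assumption)).elim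
  | exact (C2 (by assumption) (by assumption) (by assumption) (by assumption)).elim
  | exact (E1 (by assumption) (by assumption) (by assumption) (by assumption)).elim
  | exact (E2 (by assumption) (by assumption) (by assumption) (by assumption)).elim
  | exact (hnz (by assumption) (by assumption)).elim
  | exact Or.inl ⟨a1, b1, c1, d1⟩
  | exact Or.inr (Or.inl ⟨a1, b1, c1, d1⟩)
  | exact Or.inr (Or.inr (Or.inl ⟨a1, b1, c1, d1⟩))
  | exact Or.inr (Or.inr (Or.inr (Or.inl ⟨a1, b1, c1, d1⟩)))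
  | exact Or.inr (Or.inr (Or.inr (Or.inr (Or.inl ⟨a1, b1, c1, d1⟩))))
  | exact Or.inr (Or.inr (Or.inr (Or.inr (Or.inr ⟨a1, b1, c1, d1⟩))))
  | (exfalso; linarith)

theorem plB_line_empty {S : Set (ℝ × ℝ)} {w p : ℝ × ℝ} (hw : w ≠ 0) (h : ∀ x ∈ S, det w (x - p) = 0) :
    ¬ (interior (convexHull ℝ S)).Nonempty := by
  rintro ⟨x, hx⟩
  have hsub : convexHull ℝ S ⊆ {y | det w (y - p) = 0} := by
    apply convexHull_min h
    intro y hy z hz a b ha hb hab
    have hy' : det w (y - p) = 0 := hy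
    have hz' : det w (z - p) = 0 := hz
    show det w (a • y + b • z - p) = 0
    have e : a • y + b • z - p = a • (y - p) + b • (z - p) := by
      have : p = a • p + b • p := by rw [← add_smul, hab, one_smul]
      nth_rw 1 [this]
      rw [smul_sub, smul_sub]; abel
    rw [e, polyH_det_add, polyH_det_smul, polyH_det_smul, hy', hz']; ring
  have hpos : 0 < w.1 ^ 2 + w.2 ^ 2 := by
    rcases eq_or_ne w.1 0 with h1 | h1
    · have h2 : w.2 ≠ 0 := fun h2 => hw (Prod.ext h1 h2)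
      positivity
    · positivity
  have hev : ∀ᶠ δ : ℝ in 𝓝 0, x + δ • ((w.2, -w.1) : ℝ × ℝ) ∈ interior (convexHull ℝ S) := by
    have hc : ContinuousAt (fun δ : ℝ => x + δ • ((w.2, -w.1) : ℝ × ℝ)) 0 := by fun_prop
    apply hc.eventually
    apply isOpen_interior.mem_nhds
    simpa using hx
  have h2 : ∀ᶠ δ : ℝ in 𝓝[>] 0, x + δ • ((w.2, -w.1) : ℝ × ℝ) ∈ interior (convexHull ℝ S) :=
    hev.filter_mono nhdsWithin_le_nhds
  obtain ⟨δ, h3, h4⟩ := (h2.and self_mem_nhdsWithin).exists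
  have h4' : 0 < δ := h4
  have h5 : det w (x + δ • ((w.2, -w.1) : ℝ × ℝ) - p) = 0 := hsub (interior_subset h3)
  have h6 : det w (x - p) = 0 := hsub (interior_subset hx)
  have e : x + δ • ((w.2, -w.1) : ℝ × ℝ) - p = (x - p) + δ • ((w.2, -w.1) : ℝ × ℝ) := by abel
  rw [e, polyH_det_add, polyH_det_smul, h6] at h5
  have e2 : det w ((w.2, -w.1) : ℝ × ℝ) = -(w.1 ^ 2 + w.2 ^ 2) := by
    simp only [det]; ring
  rw [e2] at h5
  nlinarith [mul_pos h4' hpos]

theorem exists_isPoly_of_triQuad {Q : Set (ℝ × ℝ)} (hQ : TriQuad Q) :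
    ∃ (n : ℕ) (v : ZMod n → ℝ × ℝ), n ≤ 4 ∧ IsPoly v ∧ Q = body v := by
  classical
  obtain ⟨S₀, hS₀, hQ₀, hint⟩ := hQ
  have hex : ∃ k, ∃ S : Finset (ℝ × ℝ), S.card = k ∧ Q = convexHull ℝ (S : Set (ℝ × ℝ)) :=
    ⟨_, S₀, rfl, hQ₀⟩
  obtain ⟨S, hSc, hQS⟩ := Nat.find_spec hex
  have hk4 : Nat.find hex ≤ 4 := (Nat.find_min' hex ⟨S₀, rfl, hQ₀⟩).trans hS₀
  -- no point is in the hull of the others
  have hmin : ∀ a ∈ S, ∀ T : Finset (ℝ × ℝ), S = insert a T → a ∉ T →
      a ∉ convexHull ℝ (T : Set (ℝ × ℝ)) := by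
    intro a ha T hST haT hmem
    have hT : Q = convexHull ℝ (T : Set (ℝ × ℝ)) := by
      rw [hQS]
      apply Subset.antisymm
      · apply convexHull_min _ (convex_convexHull ℝ _)
        rw [hST, Finset.coe_insert]
        exact insert_subset hmem (subset_convexHull ℝ _)
      · apply convexHull_mono
        rw [hST, Finset.coe_insert]
        exact subset_insert _ _
    have h1 := Nat.find_min' hex ⟨T, rfl, hT⟩
    rw [← hSc, hST, Finset.card_insert_of_notMem haT] at h1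
    omega
  have hbody : ∀ (n : ℕ) (v : ZMod n → ℝ × ℝ), n ≤ 4 → IsPoly v → Set.range v = (S : Set (ℝ × ℝ)) →
      ∃ (n : ℕ) (v : ZMod n → ℝ × ℝ), n ≤ 4 ∧ IsPoly v ∧ Q = body v := by
    intro n v hn hv hr
    exact ⟨n, v, hn, hv, by rw [hQS, body, hr]⟩
  rw [hQS] at hint
  generalize Nat.find hex = k at hSc hk4
  have hk : k = 0 ∨ k = 1 ∨ k = 2 ∨ k = 3 ∨ k = 4 := by omega
  rcases hk with rfl | rfl | rfl | rfl | rfl
  · rw [Finset.card_eq_zero] at hSc
    subst hSc
    simp at hint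
  · rw [Finset.card_eq_one] at hSc
    obtain ⟨a, rfl⟩ := hSc
    exact absurd hint (plB_line_empty (w := (1, 0)) (p := a) (by simp) (by
      intro x hx
      simp only [Finset.coe_singleton, mem_singleton_iff] at hx
      rw [hx, sub_self, polyH_det_zero]))
  · rw [Finset.card_eq_two] at hSc
    obtain ⟨a, b, hab, rfl⟩ := hSc
    exact absurd hint (plB_line_empty (w := b - a) (p := a) (sub_ne_zero.2 hab.symm) (by
      intro x hx
      simp only [Finset.coe_insert, Finset.coe_singleton, mem_insert_iff, mem_singleton_iff] at hx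
      rcases hx with rfl | rfl
      · rw [sub_self, polyH_det_zero]
      · rw [polyH_det_self]))
  · rw [Finset.card_eq_three] at hSc
    obtain ⟨a, b, c, hab, hac, hbc, rfl⟩ := hSc
    have hne : plB_D3 a b c ≠ 0 := by
      intro h0
      exact absurd hint (plB_line_empty (w := b - a) (p := a) (sub_ne_zero.2 hab.symm) (by
        intro x hx
        simp only [Finset.coe_insert, Finset.coe_singleton, mem_insert_iff, mem_singleton_iff] at hx
        rcases hx with rfl | rfl | rfl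
        · rw [sub_self, polyH_det_zero]
        · rw [polyH_det_self]
        · exact h0))
    rcases hne.lt_or_gt with h | h
    · obtain ⟨v, hv, hr⟩ := plB_tri_isPoly (a := a) (b := c) (c := b) (by rw [plB_D3_swap]; linarith)
      apply hbody 3 v (by norm_num) hv
      rw [hr]
      ext x
      simp only [Finset.coe_insert, Finset.coe_singleton, mem_insert_iff, mem_singleton_iff]
      tauto
    · obtain ⟨v, hv, hr⟩ := plB_tri_isPoly h
      apply hbody 3 v (by norm_num) hv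
      rw [hr]
      simp
  · rw [Finset.card_eq_succ] at hSc
    obtain ⟨a, T, haT, rfl, hT⟩ := hSc
    rw [Finset.card_eq_three] at hT
    obtain ⟨b, c, d, hbc, hbd, hcd, rfl⟩ := hT
    simp only [Finset.mem_insert, Finset.mem_singleton, not_or] at haT
    obtain ⟨hab, hac, had⟩ := haT
    have hSs : ((insert a {b, c, d} : Finset (ℝ × ℝ)) : Set (ℝ × ℝ)) = {a, b, c, d} := by simp
    have ma : a ∉ convexHull ℝ ({b, c, d} : Set (ℝ × ℝ)) := by
      have := hmin a (by simp) {b, c, d} rfl (by simp [hab, hac, had])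
      simpa using this
    have mb : b ∉ convexHull ℝ ({a, c, d} : Set (ℝ × ℝ)) := by
      have := hmin b (by simp) {a, c, d} (by ext x; simp; tauto)
        (by simp [Ne.symm hab, hbc, hbd])
      simpa using this
    have mc : c ∉ convexHull ℝ ({a, b, d} : Set (ℝ × ℝ)) := by
      have := hmin c (by simp) {a, b, d} (by ext x; simp; tauto)
        (by simp [Ne.symm hac, Ne.symm hbc, hcd])
      simpa using this
    have md : d ∉ convexHull ℝ ({a, b, c} : Set (ℝ × ℝ)) := by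
      have := hmin d (by simp) {a, b, c} (by ext x; simp; tauto)
        (by simp [Ne.symm had, Ne.symm hbd, Ne.symm hcd])
      simpa using this
    have hrel := plB_rel4 a b c d
    have hsum := plB_sum4 a b c d
    have hnz : ¬ (plB_D3 a b c = 0 ∧ plB_D3 a b d = 0) := by
      rintro ⟨h0, h1⟩
      exact absurd hint (plB_line_empty (w := b - a) (p := a) (sub_ne_zero.2 (Ne.symm hab)) (by
        intro x hx
        rw [hSs] at hx
        simp only [mem_insert_iff, mem_singleton_iff] at hx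
        rcases hx with rfl | rfl | rfl | rfl
        · rw [sub_self, polyH_det_zero]
        · rw [polyH_det_self]
        · exact h0
        · exact h1))
    have hfin : ∀ p q r s : ℝ × ℝ, ({p, q, r, s} : Set (ℝ × ℝ)) = {a, b, c, d} →
        0 < plB_D3 p q r → 0 < plB_D3 p q s → 0 < plB_D3 p r s → 0 < plB_D3 q r s →
        ∃ (n : ℕ) (v : ZMod n → ℝ × ℝ), n ≤ 4 ∧ IsPoly v ∧ Q = body v := by
      intro p q r s he h1 h2 h3 h4
      obtain ⟨v, hv, hr⟩ := plB_quad_isPoly h1 h2 h3 h4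
      exact hbody 4 v le_rfl hv (by rw [hr, he, hSs])
    have sw1 := plB_D3_swap a b c
    have sw2 := plB_D3_swap a b d
    have sw3 := plB_D3_swap a c d
    have sw4 := plB_D3_swap b c d
    have cy1 : plB_D3 d b c = plB_D3 b c d := (plB_D3_cyc d b c).symm
    have cy2 : plB_D3 c d b = plB_D3 b c d := plB_D3_cyc b c d
    have cy3 : plB_D3 d c b = - plB_D3 b c d := by rw [plB_D3_swap d b c, cy1]
    have cy4 : plB_D3 c b d = - plB_D3 b c d := by rw [plB_D3_swap c d b, cy2]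
    obtain ⟨α, hα⟩ : ∃ α, α = plB_D3 b c d := ⟨_, rfl⟩
    obtain ⟨β, hβ⟩ : ∃ β, β = - plB_D3 a c d := ⟨_, rfl⟩
    obtain ⟨γ, hγ⟩ : ∃ γ, γ = plB_D3 a b d := ⟨_, rfl⟩
    obtain ⟨δ, hδ⟩ : ∃ δ, δ = - plB_D3 a b c := ⟨_, rfl⟩
    have hs : α + β + γ + δ = 0 := by rw [hα, hβ, hγ, hδ]; linarith
    have hr : α • a + β • b + γ • c + δ • d = 0 := by
      rw [hα, hβ, hγ, hδ, neg_smul, neg_smul, ← hrel]; abel
    obtain ⟨A1, A2⟩ := plB_no_signs hs hr ma
    obtain ⟨B1, B2⟩ := plB_no_signs (α := β) (β := α) (γ := γ) (δ := δ) (by linarith)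
      (by rw [← hr]; abel) mb
    obtain ⟨C1, C2⟩ := plB_no_signs (α := γ) (β := α) (γ := β) (δ := δ) (by linarith)
      (by rw [← hr]; abel) mc
    obtain ⟨E1, E2⟩ := plB_no_signs (α := δ) (β := α) (γ := β) (δ := γ) (by linarith)
      (by rw [← hr]; abel) md
    have hnz' : γ = 0 → δ = 0 → False := fun h1 h2 => hnz ⟨by linarith, by linarith⟩
    have key := plB_signs4 hs A1 A2 B1 B2 C1 C2 E1 E2 hnz'
    rcases key with ⟨h1, h2, h3, h4⟩ | ⟨h1, h2, h3, h4⟩ | ⟨h1, h2, h3, h4⟩ | ⟨h1, h2, h3, h4⟩ |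
      ⟨h1, h2, h3, h4⟩ | ⟨h1, h2, h3, h4⟩
    · exact hfin a b c d rfl (by linarith) (by linarith) (by linarith) (by linarith)
    · exact hfin a d c b (plB_perm1 a b c d)
        (by linarith) (by linarith) (by linarith) (by linarith)
    · exact hfin a d b c (plB_perm2 a b c d)
        (by linarith) (by linarith) (by linarith) (by linarith)
    · exact hfin a c b d (plB_perm3 a b c d)
        (by linarith) (by linarith) (by linarith) (by linarith)
    · exact hfin a c d b (plB_perm4 a b c d)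
        (by linarith) (by linarith) (by linarith) (by linarith)
    · exact hfin a b d c (plB_perm5 a b c d)
        (by linarith) (by linarith) (by linarith) (by linarith)

theorem tiles_triQuad {Q : Set (ℝ × ℝ)} (hQ : TriQuad Q) : Tiles Q := by
  obtain ⟨n, v, hn, hv, rfl⟩ := exists_isPoly_of_triQuad hQ
  exact tiles_of_good hv (Or.inl hn)

end Pool.PT24
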